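import Pool.Agent.R184.PhantomCount

set_option autoImplicit false

namespace Pool.Agent.R184.Phantom

open Finset Filter Topology
open scoped Classical

variable {n : ℕ}

theorem Good.mono {a b : ℕ} {ι : Type} [Fintype ι] {u u' : ℕ} {c c' : ℝ}
    (h : Good n a b ι u c) (hu : u ≤ u') (hc : c ≤ c') : Good n a b ι u' c' := by
  intro h₀ hh
  obtain ⟨fam, hf⟩ := h h₀ (by omega)
  exact ⟨fam, fun σ => (hf σ).trans (mul_le_mul_of_nonneg_right hc (Nat.cast_nonneg _))⟩

theorem chord {u D z : ℝ} (hz0 : 0 ≤ z) (hzD : z ≤ D) (hD : 0 < D) (hu : D < u) :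
    D / (u - z) ≤ (1 - z / D) * (D / u) + (z / D) * (D / (u - D)) := by
  have h1 : 0 < u - z := by linarith
  have h2 : 0 < u - D := by linarith
  have h3 : 0 < u := by linarith
  have h4 : (1 - z / D) * (D / u) + (z / D) * (D / (u - D)) = (D - z) / u + z / (u - D) := by
    field_simp
  rw [h4, div_add_div _ _ h3.ne' h2.ne', div_le_div_iff₀ h1 (mul_pos h3 h2)]
  nlinarith [mul_nonneg hz0 (sub_nonneg.mpr hzD), mul_pos h3 h2]

/-- The bound for the last two targets. -/
noncomputable def base (y ρ : ℝ) : ℝ := y * (y / 2 + y / (1 - y) * (1 + ρ) / 2)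

theorem sum_range_cast (R : ℕ) : ∑ r ∈ range R, ((r : ℝ) + 1) = R * (R + 1) / 2 := by
  induction R with
  | zero => simp
  | succ R ih => rw [sum_range_succ, ih]; push_cast; ring

theorem good_two {a b K u R : ℕ} (hn : 0 < n) (ha : 0 < a) (hR0 : 0 < R)
    (hK : ∀ i, 1 ≤ i → i ≤ n → i ∣ K) (hR : n - 1 ≤ b * R) (hu : 2 * a * R < u) :
    Good n a b (Fin K × (Fin K × Unit)) u (base ((2 * a * R : ℕ) / u) (1 / R)) := by
  have h0 : ∀ u, Good n a b Unit u 1 := fun u => good_zero a b u Unit hn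
  have h1 : ∀ u : ℕ, 1 ≤ u → Good n a b (Fin K × Unit) u (2 * a * R / u) := by
    intro u hu
    have := good_succ (ι := Unit) (u := u) hK hR hu (fun _ => (1 : ℝ)) (fun _ => zero_le_one)
      (fun r _ _ => h0 _)
    refine this.mono le_rfl ?_
    rw [sum_const, card_range, nsmul_eq_mul, mul_one]
    apply le_of_eq
    ring
  have hu1 : 1 ≤ u := by omega
  have h2 := good_succ (ι := Fin K × Unit) (u := u) hK hR hu1
    (fun r => 2 * a * R / ((u - 2 * a * r : ℕ) : ℝ)) (fun r => by positivity)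
    (fun r _ hr => h1 _ (by
      have : 2 * a * r ≤ 2 * a * R := Nat.mul_le_mul_left _ hr
      omega))
  refine h2.mono le_rfl ?_
  have hRpos : (0 : ℝ) < R := by exact_mod_cast hR0
  have hapos : (0 : ℝ) < a := by exact_mod_cast ha
  have hDpos : (0 : ℝ) < 2 * a * R := by positivity
  have hDu : (2 * a * R : ℝ) < u := by exact_mod_cast hu
  have hupos : (0 : ℝ) < u := hDpos.trans hDu
  have hterm : ∀ r ∈ range R, 2 * a * R / ((u - 2 * a * (r + 1) : ℕ) : ℝ) ≤
      (1 - ((r : ℝ) + 1) / R) * ((2 * a * R : ℝ) / u) +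
        ((r : ℝ) + 1) / R * ((2 * a * R) / (u - 2 * a * R)) := by
    intro r hr
    have hr' : r + 1 ≤ R := mem_range.mp hr
    have hle : 2 * a * (r + 1) ≤ 2 * a * R := Nat.mul_le_mul_left _ hr'
    have hcast : ((u - 2 * a * (r + 1) : ℕ) : ℝ) = u - 2 * a * ((r : ℝ) + 1) := by
      rw [Nat.cast_sub (by omega)]
      push_cast
      ring
    rw [hcast]
    have hrR : (r : ℝ) + 1 ≤ R := by exact_mod_cast hr'
    have h := chord (u := u) (D := 2 * a * R) (z := 2 * a * ((r : ℝ) + 1)) (by positivity)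
      (by nlinarith) hDpos hDu
    have h5 : 2 * a * ((r : ℝ) + 1) / (2 * a * R) = ((r : ℝ) + 1) / R := by
      field_simp
    rw [h5] at h
    exact h
  have hsum : ∑ r ∈ range R, 2 * a * R / ((u - 2 * a * (r + 1) : ℕ) : ℝ) ≤
      R / 2 * ((2 * a * R : ℝ) / u) + (R + 1) / 2 * ((2 * a * R) / (u - 2 * a * R)) := by
    refine (sum_le_sum hterm).trans ?_
    rw [sum_add_distrib, ← sum_mul, ← sum_mul, sum_sub_distrib, ← sum_div,
      sum_range_cast, sum_const, card_range, nsmul_eq_mul, mul_one]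
    have h8 : (R : ℝ) * (R + 1) / 2 / R = (R + 1) / 2 := by field_simp
    rw [h8]
    have h7 : (0 : ℝ) ≤ 2 * a * R / u := by positivity
    nlinarith
  have hy : (((2 * a * R : ℕ) : ℝ)) = 2 * a * R := by push_cast; ring
  rw [hy]
  have h9 : (2 * a * R : ℝ) / (u - 2 * a * R) =
      (2 * a * R / u) / (1 - 2 * a * R / u) := by
    have : (u : ℝ) - 2 * a * R ≠ 0 := by linarith
    have h10 : (1 : ℝ) - 2 * a * R / u ≠ 0 := by
      have : (2 * a * R : ℝ) / u < 1 := (div_lt_one hupos).mpr hDu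
      linarith
    field_simp
  calc (2 * a / u : ℝ) * ∑ r ∈ range R, 2 * a * R / ((u - 2 * a * (r + 1) : ℕ) : ℝ)
      ≤ 2 * a / u * (R / 2 * ((2 * a * R : ℝ) / u) +
          (R + 1) / 2 * ((2 * a * R) / (u - 2 * a * R))) :=
        mul_le_mul_of_nonneg_left hsum (by positivity)
    _ = base (2 * a * R / u) (1 / R) := by
        rw [h9]
        unfold base
        have h11 : (2 * a / u : ℝ) = (2 * a * R / u) / R := by field_simp
        rw [h11]
        generalize (2 * a * R / u : ℝ) = y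
        generalize y / (1 - y) = w
        field_simp

/-- The recursive bound. -/
noncomputable def W (m : ℕ) (x ρ : ℝ) : ℕ → ℝ
  | 0 => base (x / (1 - ((m : ℝ) - 2) * x)) ρ
  | i + 1 => x / (1 - ((m : ℝ) - 3 - i) * x) * W m x ρ i

theorem base_nonneg {y ρ : ℝ} (hy : 0 ≤ y) (hy1 : y < 1) (hρ : 0 ≤ ρ) : 0 ≤ base y ρ := by
  unfold base
  have : 0 < 1 - y := by linarith
  positivity

theorem good_chain {a b K m R : ℕ} (ha : 0 < a) (hR0 : 0 < R)
    (hK : ∀ i, 1 ≤ i → i ≤ n → i ∣ K) (hK0 : 0 < K) (hR : n - 1 ≤ b * R)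
    (hn : (m - 1) * (2 * a * R) < n) (i : ℕ) (him : i + 2 ≤ m) :
    0 ≤ W m ((2 * a * R : ℕ) / n) (1 / R) i ∧
    ∃ (ι : Type) (_ : Fintype ι), Nonempty ι ∧
      Good n a b ι (n - (m - 2 - i) * (2 * a * R)) (W m ((2 * a * R : ℕ) / n) (1 / R) i) := by
  have hnpos : 0 < n := by omega
  have hnR : (0 : ℝ) < n := by exact_mod_cast hnpos
  set D := 2 * a * R with hD
  have hDpos : 0 < D := by positivity
  have hDR : (0 : ℝ) < D := by exact_mod_cast hDpos
  induction i with
  | zero =>
    have hm2 : (m - 2) * D + D < n := by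
      have : (m - 2) * D + D = (m - 1) * D := by
        have h1 : m - 1 = (m - 2) + 1 := by omega
        rw [h1]; ring
      omega
    have hu : D < n - (m - 2) * D := by omega
    have hcast : ((n - (m - 2) * D : ℕ) : ℝ) = n - ((m : ℝ) - 2) * D := by
      rw [Nat.cast_sub (by omega), Nat.cast_mul, Nat.cast_sub (by omega)]
      push_cast
      ring
    have hy : (D : ℝ) / n / (1 - ((m : ℝ) - 2) * (D / n)) =
        (D : ℝ) / ((n - (m - 2) * D : ℕ) : ℝ) := by
      rw [hcast]
      have h1 : (1 - ((m : ℝ) - 2) * (D / n)) = (n - ((m : ℝ) - 2) * D) / n := by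
        field_simp
      rw [h1, div_div_div_cancel_right₀ hnR.ne']
    have hupos : (0 : ℝ) < ((n - (m - 2) * D : ℕ) : ℝ) := by
      have : 0 < n - (m - 2) * D := by omega
      exact_mod_cast this
    constructor
    · show 0 ≤ base _ _
      rw [hy]
      refine base_nonneg (by positivity) ?_ (by positivity)
      rw [div_lt_one hupos]
      exact_mod_cast hu
    · refine ⟨Fin K × (Fin K × Unit), inferInstance, ?_, ?_⟩
      · exact ⟨(⟨0, hK0⟩, ⟨0, hK0⟩, ())⟩
      · show Good n a b _ _ (base _ _)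
        rw [hy]
        exact good_two hnpos ha hR0 hK hR hu
  | succ i ih =>
    obtain ⟨hW, ι, _, hne, hg⟩ := ih (by omega)
    have h1 : m - 2 - i = (m - 2 - (i + 1)) + 1 := by omega
    have h2 : (m - 2 - i) * D = (m - 2 - (i + 1)) * D + D := by rw [h1]; ring
    have h3 : (m - 2 - i) * D ≤ (m - 1) * D := Nat.mul_le_mul_right _ (by omega)
    set u := n - (m - 2 - (i + 1)) * D with hu
    have hu0 : n - (m - 2 - i) * D + D = u := by omega
    have hu1 : 1 ≤ u := by omega
    have h5 : (((m - 2 - (i + 1) : ℕ)) : ℝ) = (m : ℝ) - 3 - i := by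
      rw [Nat.cast_sub (by omega), Nat.cast_sub (by omega)]
      push_cast
      ring
    have hcast : (u : ℝ) = n - ((m : ℝ) - 3 - i) * D := by
      rw [hu, Nat.cast_sub (by omega), Nat.cast_mul, h5]
    have hupos : (0 : ℝ) < u := by exact_mod_cast hu1
    have hy : (D : ℝ) / n / (1 - ((m : ℝ) - 3 - i) * (D / n)) = (D : ℝ) / u := by
      rw [hcast]
      have h1 : (1 - ((m : ℝ) - 3 - i) * (D / n)) = (n - ((m : ℝ) - 3 - i) * D) / n := by
        field_simp
      rw [h1, div_div_div_cancel_right₀ hnR.ne']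
    constructor
    · show 0 ≤ _ * _
      rw [hy]
      positivity
    · refine ⟨Fin K × ι, inferInstance, ⟨(⟨0, hK0⟩, hne.some)⟩, ?_⟩
      show Good n a b _ u (_ * _)
      rw [hy]
      have h6 := good_succ (ι := ι) (u := u) hK hR hu1
        (fun _ => W m (D / n) (1 / R) i) (fun _ => hW) (fun r _ hr => by
          refine hg.mono ?_ le_rfl
          have : 2 * a * r ≤ 2 * a * R := Nat.mul_le_mul_left _ hr
          omega)
      refine h6.mono le_rfl (le_of_eq ?_)
      rw [sum_const, card_range, nsmul_eq_mul, hD]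
      push_cast
      ring

theorem tendsto_W {m : ℕ} (hm : 2 ≤ m) (i : ℕ) (him : i + 2 ≤ m) {f g : ℕ → ℝ}
    (hf : Tendsto f atTop (𝓝 (1 / m))) (hg : Tendsto g atTop (𝓝 0)) :
    Tendsto (fun n => W m (f n) (g n) i) atTop (𝓝 (3 / 4 / (Nat.factorial (i + 2)))) := by
  have hm0 : (0 : ℝ) < m := by
    have : 0 < m := by omega
    exact_mod_cast this
  induction i with
  | zero =>
    show Tendsto (fun n => base (f n / (1 - ((m : ℝ) - 2) * f n)) (g n)) atTop _
    have h1 : Tendsto (fun n => 1 - ((m : ℝ) - 2) * f n) atTop (𝓝 (2 / m)) := by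
      have := (tendsto_const_nhds (x := (1 : ℝ)) (f := atTop (α := ℕ))).sub
        (hf.const_mul ((m : ℝ) - 2))
      convert this using 2
      field_simp
      ring
    have h2 : Tendsto (fun n => f n / (1 - ((m : ℝ) - 2) * f n)) atTop (𝓝 (1 / 2)) := by
      have := hf.div h1 (by positivity)
      have e : (1 / m / (2 / m) : ℝ) = 1 / 2 := by field_simp
      rw [e] at this
      exact this
    have h3 : Tendsto (fun n => 1 - f n / (1 - ((m : ℝ) - 2) * f n)) atTop (𝓝 (1 / 2)) := by
      have := (tendsto_const_nhds (x := (1 : ℝ)) (f := atTop (α := ℕ))).sub h2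
      convert this using 2
      norm_num
    have h4 := h2.mul (((h2.div_const 2)).add
      (((h2.div h3 (by norm_num)).mul ((tendsto_const_nhds (x := (1 : ℝ))).add hg)).div_const 2))
    unfold base
    have e : (1 / 2 * (1 / 2 / 2 + 1 / 2 / (1 / 2) * (1 + 0) / 2) : ℝ) =
        3 / 4 / (Nat.factorial (0 + 2)) := by norm_num [Nat.factorial]
    rw [e] at h4
    exact h4
  | succ i ih =>
    show Tendsto (fun n => f n / (1 - ((m : ℝ) - 3 - i) * f n) * W m (f n) (g n) i) atTop _
    have hi3 : (0 : ℝ) < (i : ℝ) + 3 := by positivity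
    have h1 : Tendsto (fun n => 1 - ((m : ℝ) - 3 - i) * f n) atTop (𝓝 ((i + 3) / m)) := by
      have := (tendsto_const_nhds (x := (1 : ℝ)) (f := atTop (α := ℕ))).sub
        (hf.const_mul ((m : ℝ) - 3 - i))
      convert this using 2
      field_simp
      ring
    have h2 : Tendsto (fun n => f n / (1 - ((m : ℝ) - 3 - i) * f n)) atTop
        (𝓝 (1 / (i + 3))) := by
      have := hf.div h1 (by positivity)
      have e : (1 / m / ((i + 3) / m) : ℝ) = 1 / (i + 3) := by field_simp
      rw [e] at this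
      exact this
    have h3 := h2.mul (ih (by omega))
    convert h3 using 2
    have : (i + 1 + 2).factorial = (i + 3) * (i + 2).factorial := Nat.factorial_succ (i + 2)
    rw [this]
    push_cast
    have h4 : ((i + 2).factorial : ℝ) ≠ 0 := by positivity
    field_simp

end Pool.Agent.R184.Phantom
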