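import Pool.Agent.R184.PhantomDefs

set_option autoImplicit false

namespace Pool.Agent.R184.Phantom

open Finset
open scoped Classical

variable {n : ℕ}

/-- Vertices met by a list of attempts. -/
def vts (x : List (Edge n × Bool)) : Finset (Fin n) :=
  univ.filter (fun v => ∃ p ∈ x, v ∈ p.1.1)

/-- Vertices met by the attempts of a history. -/
def attempted (h : History n) : Finset (Fin n) :=
  univ.filter (fun v => ∃ r ∈ h, ∃ p ∈ r.1, v ∈ p.1.1)

/-- The edges at `v`. -/
def star (v : Fin n) : Finset (Edge n) := univ.filter (fun e => v ∈ e.1)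

theorem mem_vts {x : List (Edge n × Bool)} {v : Fin n} :
    v ∈ vts x ↔ ∃ p ∈ x, v ∈ p.1.1 := by simp [vts]

theorem mem_attempted {h : History n} {v : Fin n} :
    v ∈ attempted h ↔ ∃ r ∈ h, ∃ p ∈ r.1, v ∈ p.1.1 := by simp [attempted]

theorem mem_star {v : Fin n} {e : Edge n} : e ∈ star v ↔ v ∈ e.1 := by simp [star]

theorem attempted_cons (r : Round n) (h : History n) :
    attempted (r :: h) = vts r.1 ∪ attempted h := by
  ext v
  simp [mem_attempted, mem_vts]

theorem attempted_nil : attempted ([] : History n) = ∅ := by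
  ext v
  simp [mem_attempted]

theorem card_vts_le (x : List (Edge n × Bool)) : (vts x).card ≤ 2 * x.length := by
  induction x with
  | nil =>
    have : vts ([] : List (Edge n × Bool)) = ∅ := by
      ext v; simp [mem_vts]
    rw [this]; simp
  | cons p x ih =>
    have h1 : vts (p :: x) ⊆ p.1.1.toFinset ∪ vts x := by
      intro v hv
      rw [mem_vts] at hv
      obtain ⟨q, hq, hv⟩ := hv
      rcases List.mem_cons.mp hq with rfl | hq
      · exact mem_union_left _ (by simpa using hv)
      · exact mem_union_right _ (mem_vts.mpr ⟨q, hq, hv⟩)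
    have h2 : (p.1.1.toFinset).card = 2 := Sym2.card_toFinset_of_not_isDiag _ p.1.2
    calc (vts (p :: x)).card ≤ (p.1.1.toFinset ∪ vts x).card := card_le_card h1
      _ ≤ (p.1.1.toFinset).card + (vts x).card := card_union_le _ _
      _ ≤ 2 + 2 * x.length := by rw [h2]; omega
      _ = 2 * (p :: x).length := by simp; ring

theorem length_makerTurn (σ : MakerStrategy n) (B : Finset (Edge n)) (past : List Bool) (i : ℕ) :
    (makerTurn σ B past i).length = i := by
  induction i with
  | zero => rfl
  | succ i ih => simp [makerTurn, ih]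

theorem card_star_le (v : Fin n) : (star v).card ≤ n - 1 := by
  have hsub : star v ⊆ (univ : Finset {w : Fin n // w ≠ v}).image
      (fun w => (⟨s(v, w.1), by simpa using w.2.symm⟩ : Edge n)) := by
    intro e he
    rw [mem_star] at he
    obtain ⟨w, hw⟩ := he
    have hne : w ≠ v := by
      rintro rfl
      exact e.2 (by rw [hw]; simp)
    refine mem_image.mpr ⟨⟨w, hne⟩, mem_univ _, ?_⟩
    exact Subtype.ext hw.symm
  refine (card_le_card hsub).trans (card_image_le.trans ?_)
  rw [card_univ]
  have h0 : Fintype.card {w : Fin n // w ≠ v} = Fintype.card (Fin n) - 1 := by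
    have := Set.card_ne_eq v
    simpa using this
  rw [h0, Fintype.card_fin]

theorem mem_won {x : List (Edge n × Bool)} {e : Edge n} : e ∈ won x ↔ (e, true) ∈ x := by
  simp only [won, List.mem_toFinset, List.mem_map, List.mem_filter]
  constructor
  · rintro ⟨⟨e', b⟩, ⟨h1, h2⟩, h3⟩
    simp only at h2 h3
    subst h3; subst h2
    exact h1
  · intro h
    exact ⟨(e, true), ⟨h, rfl⟩, rfl⟩

theorem won_makerTurn_disj (σ : MakerStrategy n) (B : Finset (Edge n)) (past : List Bool) (i : ℕ)
    {e : Edge n} (he : e ∈ won (makerTurn σ B past i)) : e ∉ B := by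
  rw [mem_won] at he
  induction i with
  | zero => simp [makerTurn] at he
  | succ i ih =>
    rcases List.mem_cons.mp he with h | h
    · rw [Prod.ext_iff] at h
      obtain ⟨h1, h2⟩ := h
      simp only at h1 h2
      rw [← h1] at h2
      simpa using h2.symm
    · exact ih h

theorem mem_attempted_of_mem_makerGraph {h : History n} {e : Edge n} (he : e ∈ makerGraph h)
    {v : Fin n} (hv : v ∈ e.1) : v ∈ attempted h := by
  induction h with
  | nil => simp [makerGraph] at he
  | cons r h ih =>
    rw [attempted_cons]
    rcases mem_union.mp he with he | he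
    · exact mem_union_left _ (mem_vts.mpr ⟨(e, true), mem_won.mp he, hv⟩)
    · exact mem_union_right _ (ih he)

theorem makerTurn_congr {σ : MakerStrategy n} {B B' : Finset (Edge n)} {past : List Bool}
    {v : Fin n} (hB : ∀ e : Edge n, v ∉ e.1 → (e ∈ B ↔ e ∈ B')) (i : ℕ)
    (hv : v ∉ vts (makerTurn σ B' past i)) :
    makerTurn σ B past i = makerTurn σ B' past i := by
  induction i with
  | zero => rfl
  | succ i ih =>
    have h1 : v ∉ vts (makerTurn σ B' past i) := by
      intro h
      rw [mem_vts] at h
      obtain ⟨p, hp, h⟩ := h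
      exact hv (mem_vts.mpr ⟨p, List.mem_cons_of_mem _ hp, h⟩)
    have h2 := ih h1
    simp only [makerTurn, h2]
    congr 2
    have h3 : v ∉ (σ ((makerTurn σ B' past i).map Prod.snd ++ past)).1 := by
      intro h
      exact hv (mem_vts.mpr ⟨_, List.mem_cons_self, h⟩)
    rw [decide_eq_decide]
    rw [hB _ h3]

theorem outcomes_congr : ∀ {h h' : History n}, h.map Prod.fst = h'.map Prod.fst →
    outcomes h = outcomes h'
  | [], [], _ => rfl
  | [], _ :: _, hh => by simp at hh
  | _ :: _, [], hh => by simp at hh
  | r :: h, r' :: h', hh => by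
    rw [List.map_cons, List.map_cons, List.cons.injEq] at hh
    obtain ⟨h1, h2⟩ := hh
    simp only [outcomes]
    rw [h1, outcomes_congr h2]

theorem attempted_congr : ∀ {h h' : History n}, h.map Prod.fst = h'.map Prod.fst →
    attempted h = attempted h'
  | [], [], _ => rfl
  | [], _ :: _, hh => by simp at hh
  | _ :: _, [], hh => by simp at hh
  | r :: h, r' :: h', hh => by
    rw [List.map_cons, List.map_cons, List.cons.injEq] at hh
    obtain ⟨h1, h2⟩ := hh
    rw [attempted_cons, attempted_cons, h1, attempted_congr h2]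

theorem free_free {h : History n} {x : List (Edge n × Bool)} {e : Edge n} :
    e ∈ free h x ↔ e ∉ makerGraph h ∧ e ∉ won x ∧ e ∉ breakerGraph h := by
  simp [free, not_or, and_assoc]

/-- Claims concentrated on the star of `v`. -/
theorem exists_fill (b : ℕ) (v : Fin n) (h : History n) (x : List (Edge n × Bool)) :
    ∃ F : {F : Finset (Edge n) // F ⊆ free h x ∧ F.card = min b (free h x).card},
      (F.1 ⊆ star v ∧ F.1.card = b) ∨ free h x ∩ star v ⊆ F.1 := by
  by_cases hb : b ≤ (free h x ∩ star v).card
  · obtain ⟨F, hF, hc⟩ := exists_subset_card_eq hb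
    have h1 : b ≤ (free h x).card := hb.trans (card_le_card inter_subset_left)
    refine ⟨⟨F, hF.trans inter_subset_left, ?_⟩, Or.inl ⟨hF.trans inter_subset_right, hc⟩⟩
    rw [hc, min_eq_left h1]
  · push Not at hb
    obtain ⟨F, h1, h2, h3⟩ := exists_subsuperset_card_eq (s := free h x ∩ star v)
      (t := free h x) (n := min b (free h x).card) inter_subset_left
      (le_min hb.le (card_le_card inter_subset_left)) (min_le_right _ _)
    exact ⟨⟨F, h2, h3⟩, Or.inr h1⟩

/-- The strategy which always fills the star of `v`. -/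
noncomputable def fill (b : ℕ) (v : Fin n) : BreakerStrategy n b :=
  fun h x => Classical.choose (exists_fill b v h x)

theorem fill_spec (b : ℕ) (v : Fin n) (h : History n) (x : List (Edge n × Bool)) :
    ((fill b v h x).1 ⊆ star v ∧ (fill b v h x).1.card = b) ∨
      free h x ∩ star v ⊆ (fill b v h x).1 :=
  Classical.choose_spec (exists_fill b v h x)

/-- Maker reaches minimum degree one from the history `h`. -/
def Survive {b : ℕ} (a : ℕ) (σ : MakerStrategy n) (τ : BreakerStrategy n b) (h : History n) :
    Prop :=
  ∃ t : ℕ, ∀ v : Fin n, ∃ e ∈ makerGraph ((step a σ τ)^[t] h), v ∈ e.1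

theorem makerGraph_step_mono {b : ℕ} (a : ℕ) (σ : MakerStrategy n) (τ : BreakerStrategy n b)
    (h : History n) : makerGraph h ⊆ makerGraph (step a σ τ h) :=
  subset_union_right

theorem attempted_step_mono {b : ℕ} (a : ℕ) (σ : MakerStrategy n) (τ : BreakerStrategy n b)
    (h : History n) : attempted h ⊆ attempted (step a σ τ h) := by
  unfold step
  rw [attempted_cons]
  exact subset_union_right

theorem card_attempted_step {b : ℕ} (a : ℕ) (σ : MakerStrategy n) (τ : BreakerStrategy n b)
    (h : History n) : (attempted (step a σ τ h)).card ≤ (attempted h).card + 2 * a := by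
  unfold step
  rw [attempted_cons]
  refine (card_union_le _ _).trans ?_
  have h1 := card_vts_le (makerTurn σ (breakerGraph h) (outcomes h) a)
  rw [length_makerTurn] at h1
  have : (vts (makerTurn σ (breakerGraph h) (outcomes h) a,
      (τ h (makerTurn σ (breakerGraph h) (outcomes h) a)).1).1).card ≤ 2 * a := h1
  omega

theorem card_attempted_iterate {b : ℕ} (a : ℕ) (σ : MakerStrategy n) (τ : BreakerStrategy n b)
    (h : History n) (t : ℕ) :
    (attempted ((step a σ τ)^[t] h)).card ≤ (attempted h).card + 2 * a * t := by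
  induction t with
  | zero => simp
  | succ t ih =>
    rw [Function.iterate_succ_apply']
    have := card_attempted_step a σ τ ((step a σ τ)^[t] h)
    calc _ ≤ _ := this
      _ ≤ (attempted h).card + 2 * a * t + 2 * a := by omega
      _ = _ := by ring

theorem makerGraph_iterate_mono {b : ℕ} (a : ℕ) (σ : MakerStrategy n) (τ : BreakerStrategy n b)
    (h : History n) (s t : ℕ) (hst : s ≤ t) :
    makerGraph ((step a σ τ)^[s] h) ⊆ makerGraph ((step a σ τ)^[t] h) := by
  induction t, hst using Nat.le_induction with
  | base => exact Subset.refl _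
  | succ t _ ih =>
    rw [Function.iterate_succ_apply']
    exact ih.trans (makerGraph_step_mono a σ τ _)

theorem attempted_iterate_mono {b : ℕ} (a : ℕ) (σ : MakerStrategy n) (τ : BreakerStrategy n b)
    (h : History n) (s t : ℕ) (hst : s ≤ t) :
    attempted ((step a σ τ)^[s] h) ⊆ attempted ((step a σ τ)^[t] h) := by
  induction t, hst using Nat.le_induction with
  | base => exact Subset.refl _
  | succ t _ ih =>
    rw [Function.iterate_succ_apply']
    exact ih.trans (attempted_step_mono a σ τ _)

/-- If at some moment the star of the vertex `v`, at which Maker has no edge, is full, then Maker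
has lost. -/
theorem not_survive_of_full {b : ℕ} (a : ℕ) (σ : MakerStrategy n) (τ : BreakerStrategy n b)
    (h : History n) (v : Fin n) (t : ℕ) (h1 : v ∉ attempted ((step a σ τ)^[t] h))
    (h2 : star v ⊆ breakerGraph ((step a σ τ)^[t] h)) : ¬ Survive a σ τ h := by
  have key : ∀ s, t ≤ s → star v ⊆ breakerGraph ((step a σ τ)^[s] h) ∧
      ∀ e ∈ makerGraph ((step a σ τ)^[s] h), v ∉ e.1 := by
    intro s hs
    induction s, hs using Nat.le_induction with
    | base =>
      exact ⟨h2, fun e he hv => h1 (mem_attempted_of_mem_makerGraph he hv)⟩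
    | succ s _ ih =>
      obtain ⟨ih1, ih2⟩ := ih
      rw [Function.iterate_succ_apply']
      refine ⟨ih1.trans subset_union_right, ?_⟩
      intro e he hv
      rcases mem_union.mp he with he | he
      · exact won_makerTurn_disj _ _ _ _ he (ih1 (mem_star.mpr hv))
      · exact ih2 e he hv
  rintro ⟨s, hs⟩
  obtain ⟨e, he, hv⟩ := hs v
  rcases le_total t s with hts | hts
  · exact (key s hts).2 e he hv
  · exact (key t le_rfl).2 e (makerGraph_iterate_mono a σ τ h s t hts he) hv

end Pool.Agent.R184.Phantom
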