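import Pool.Agent.R184.PhantomPhase

set_option autoImplicit false

namespace Pool.Agent.R184.Phantom

open Finset
open scoped Classical

variable {n : ℕ}

/-- Uniformly over the seeds in `ι`, Maker survives with probability at most `c` from every
history with at least `u` vertices never attempted. -/
def Good (n a b : ℕ) (ι : Type) [Fintype ι] (u : ℕ) (c : ℝ) : Prop :=
  ∀ h : History n, u + (attempted h).card ≤ n →
    ∃ fam : ι → BreakerStrategy n b, ∀ σ : MakerStrategy n,
      ((univ.filter (fun k => Survive a σ (fam k) h)).card : ℝ) ≤ c * Fintype.card ι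

theorem good_zero (a b u : ℕ) (ι : Type) [Fintype ι] (hn : 0 < n) : Good n a b ι u 1 := by
  intro h _
  refine ⟨fun _ => fill b ⟨0, hn⟩, fun σ => ?_⟩
  rw [one_mul]
  exact_mod_cast card_filter_le _ _

/-- A uniform pick from a nonempty finite set. -/
theorem exists_pick {V : Type} [DecidableEq V] (U : Finset V) (K : ℕ) (hd : U.card ∣ K) :
    ∃ pick : Fin K → V, (∀ k, pick k ∈ U) ∧
      ∀ A : Finset V, A ⊆ U →
        U.card * (univ.filter (fun k => pick k ∈ A)).card = A.card * K := by
  obtain ⟨q, rfl⟩ := hd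
  let e : Fin (U.card * q) ≃ U × Fin q :=
    finProdFinEquiv.symm.trans (Equiv.prodCongr U.equivFin.symm (Equiv.refl _))
  refine ⟨fun k => (e k).1.1, fun k => (e k).1.2, fun A hA => ?_⟩
  have h1 : (univ.filter (fun k => (e k).1.1 ∈ A)).card =
      (univ.filter (fun p : U × Fin q => p.1.1 ∈ A)).card := by
    refine card_bij (fun k _ => e k) ?_ ?_ ?_
    · intro k hk
      simpa using hk
    · intro k _ k' _ h
      exact e.injective h
    · intro p hp
      exact ⟨e.symm p, by simpa using hp, by simp⟩
  have h2 : (univ.filter (fun p : U × Fin q => p.1.1 ∈ A)) =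
      (univ.filter (fun w : U => w.1 ∈ A)) ×ˢ (univ : Finset (Fin q)) := by
    ext p
    simp
  have h3 : (univ.filter (fun w : U => w.1 ∈ A)).card = A.card := by
    refine card_bij (fun w _ => w.1) ?_ ?_ ?_
    · intro w hw
      simpa using hw
    · intro w _ w' _ h
      exact Subtype.ext h
    · intro w hw
      exact ⟨⟨w, hA hw⟩, by simpa using hw, rfl⟩
  rw [h1, h2, card_product, h3, card_univ, Fintype.card_fin]
  ring

theorem good_succ {a b K u R : ℕ} {ι : Type} [Fintype ι]
    (hK : ∀ i, 1 ≤ i → i ≤ n → i ∣ K) (hR : n - 1 ≤ b * R)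
    (hu : 1 ≤ u) (c : ℕ → ℝ) (hc : ∀ r, 0 ≤ c r)
    (hg : ∀ r, 1 ≤ r → r ≤ R → Good n a b ι (u - 2 * a * r) (c r)) :
    Good n a b (Fin K × ι) u (2 * a / u * ∑ r ∈ range R, c (r + 1)) := by
  intro h₀ hh₀
  set U : Finset (Fin n) := univ \ attempted h₀ with hUdef
  have hUcard : U.card + (attempted h₀).card = n := by
    have := card_sdiff_add_card_eq_card (subset_univ (attempted h₀))
    rw [card_univ, Fintype.card_fin] at this
    exact this
  have hUu : u ≤ U.card := by omega
  have hUn : U.card ≤ n := by omega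
  have hUne : U.Nonempty := by
    rw [← card_pos]; omega
  obtain ⟨pick, hpickU, hpick⟩ := exists_pick U K (hK _ (by omega) hUn)
  -- the families for later histories
  have hfam : ∀ h₁ : History n, ∃ fam : ι → BreakerStrategy n b, ∀ r, 1 ≤ r → r ≤ R →
      h₁.length = h₀.length + r → (attempted h₁).card ≤ (attempted h₀).card + 2 * a * r →
      ∀ σ : MakerStrategy n,
        ((univ.filter (fun k => Survive a σ (fam k) h₁)).card : ℝ) ≤ c r * Fintype.card ι := by
    intro h₁
    by_cases hr : ∃ r, 1 ≤ r ∧ r ≤ R ∧ h₁.length = h₀.length + r ∧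
        (attempted h₁).card ≤ (attempted h₀).card + 2 * a * r
    · obtain ⟨r, hr1, hr2, hr3, hr4⟩ := hr
      have hcard : u - 2 * a * r + (attempted h₁).card ≤ n := by
        have h5 : (attempted h₁).card ≤ n := by
          simpa using card_le_univ (attempted h₁)
        rcases le_total (2 * a * r) u with h6 | h6 <;> omega
      obtain ⟨fam, hf⟩ := hg r hr1 hr2 h₁ hcard
      refine ⟨fam, fun r' _ _ hr3' _ σ => ?_⟩
      have : r' = r := by omega
      rw [this]
      exact hf σ
    · refine ⟨fun _ => fill b hUne.choose, fun r h1 h2 h3 h4 => ?_⟩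
      exact absurd ⟨r, h1, h2, h3, h4⟩ hr
  choose fam hfam using hfam
  refine ⟨fun p => glue (pick p.1) (fun h₁ => fam h₁ p.2), fun σ => ?_⟩
  set N : ℕ → History n := fun r => (nstep a σ)^[r] h₀ with hN
  set D : ℕ → Finset (Fin n) := fun r =>
    U.filter (fun v => v ∉ attempted (N r) ∧ v ∈ attempted (N (r + 1))) with hD
  have hDcard : ∀ r, (D r).card ≤ 2 * a := by
    intro r
    have hsub : D r ⊆ vts (makerTurn σ (breakerGraph (N r)) (outcomes (N r)) a) := by
      intro v hv
      rw [hD, mem_filter] at hv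
      obtain ⟨_, h1, h2⟩ := hv
      have h3 : N (r + 1) = nstep a σ (N r) := Function.iterate_succ_apply' _ _ _
      rw [h3] at h2
      unfold nstep at h2
      rw [attempted_cons, mem_union] at h2
      rcases h2 with h2 | h2
      · exact h2
      · exact absurd h2 h1
    have := (card_le_card hsub).trans (card_vts_le _)
    rwa [length_makerTurn] at this
  -- survivors
  have hsurv : (univ.filter (fun p : Fin K × ι =>
      Survive a σ (glue (pick p.1) (fun h₁ => fam h₁ p.2)) h₀)) ⊆
      (range R).biUnion (fun r => (univ.filter (fun k : Fin K => pick k ∈ D r)).biUnion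
        (fun k => ({k} : Finset (Fin K)) ×ˢ (univ.filter (fun i : ι =>
          Survive a σ (fam ((step a σ (fill b (pick k)))^[r + 1] h₀) i)
            ((step a σ (fill b (pick k)))^[r + 1] h₀))))) := by
    rintro ⟨k, i⟩ hp
    rw [mem_filter] at hp
    have hkU := hpickU k
    have hkv : pick k ∉ attempted h₀ := (mem_sdiff.mp hkU).2
    obtain ⟨r, hrR, h1, h2, h3⟩ := glue_survive hR (fun h₁ => fam h₁ i) h₀ hkv hp.2
    rw [mem_biUnion]
    refine ⟨r, mem_range.mpr hrR, ?_⟩
    rw [mem_biUnion]
    refine ⟨k, mem_filter.mpr ⟨mem_univ _, mem_filter.mpr ⟨hkU, h1, h2⟩⟩, ?_⟩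
    rw [mem_product]
    exact ⟨mem_singleton_self _, mem_filter.mpr ⟨mem_univ _, h3⟩⟩
  have hlen : ∀ (v : Fin n) (r : ℕ),
      ((step a σ (fill b v))^[r] h₀).length = h₀.length + r := by
    intro v r
    induction r with
    | zero => rfl
    | succ r ih =>
      rw [Function.iterate_succ_apply']
      simp only [step, List.length_cons, ih]
      ring
  have hK0 : (0 : ℝ) ≤ K := Nat.cast_nonneg _
  have hι0 : (0 : ℝ) ≤ Fintype.card ι := Nat.cast_nonneg _
  have hUpos : (0 : ℝ) < U.card := by
    have : 0 < U.card := card_pos.mpr hUne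
    exact_mod_cast this
  have hupos : (0 : ℝ) < u := by exact_mod_cast hu
  have hbound : ((univ.filter (fun p : Fin K × ι =>
      Survive a σ (glue (pick p.1) (fun h₁ => fam h₁ p.2)) h₀)).card : ℝ) ≤
      ∑ r ∈ range R, ((univ.filter (fun k : Fin K => pick k ∈ D r)).card : ℝ) *
        (c (r + 1) * Fintype.card ι) := by
    have h1 : ((univ.filter (fun p : Fin K × ι =>
      Survive a σ (glue (pick p.1) (fun h₁ => fam h₁ p.2)) h₀)).card : ℝ) ≤
      ∑ r ∈ range R, ∑ k ∈ univ.filter (fun k : Fin K => pick k ∈ D r),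
        ((univ.filter (fun i : ι =>
          Survive a σ (fam ((step a σ (fill b (pick k)))^[r + 1] h₀) i)
            ((step a σ (fill b (pick k)))^[r + 1] h₀))).card : ℝ) := by
      have h2 := card_le_card hsurv
      refine (Nat.cast_le.mpr h2).trans ?_
      refine (Nat.cast_le.mpr card_biUnion_le).trans ?_
      push_cast
      refine sum_le_sum (fun r _ => ?_)
      refine (Nat.cast_le.mpr card_biUnion_le).trans ?_
      push_cast
      refine sum_le_sum (fun k _ => ?_)
      rw [card_product, card_singleton, one_mul]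
    refine h1.trans (sum_le_sum (fun r hr => ?_))
    rw [← nsmul_eq_mul]
    refine sum_le_card_nsmul _ _ _ (fun k _ => ?_)
    exact hfam _ (r + 1) (by omega) (by have := mem_range.mp hr; omega) (hlen _ _)
      (card_attempted_iterate a σ _ h₀ (r + 1)) σ
  refine hbound.trans ?_
  rw [Fintype.card_prod, Fintype.card_fin]
  have hterm : ∀ r, ((univ.filter (fun k : Fin K => pick k ∈ D r)).card : ℝ) ≤ 2 * a / u * K := by
    intro r
    have h1 := hpick (D r) (filter_subset _ _)
    have h2 : (U.card : ℝ) * ((univ.filter (fun k : Fin K => pick k ∈ D r)).card : ℝ) =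
        (D r).card * K := by exact_mod_cast h1
    have h3 : ((D r).card : ℝ) ≤ 2 * a := by exact_mod_cast hDcard r
    have h4 : (u : ℝ) ≤ U.card := by exact_mod_cast hUu
    have h5 : ((univ.filter (fun k : Fin K => pick k ∈ D r)).card : ℝ) =
        (D r).card * K / U.card := by
      field_simp
      linarith
    rw [h5, div_mul_eq_mul_div]
    have h6 : ((D r).card : ℝ) * K ≤ 2 * a * K := mul_le_mul_of_nonneg_right h3 hK0
    have h7 : (0 : ℝ) ≤ (D r).card * K := by positivity
    exact div_le_div₀ (by positivity) h6 hupos h4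
  calc ∑ r ∈ range R, ((univ.filter (fun k : Fin K => pick k ∈ D r)).card : ℝ) *
        (c (r + 1) * Fintype.card ι)
      ≤ ∑ r ∈ range R, (2 * a / u * K) * (c (r + 1) * Fintype.card ι) :=
        sum_le_sum (fun r _ => mul_le_mul_of_nonneg_right (hterm r)
          (mul_nonneg (hc _) hι0))
    _ = 2 * a / u * (∑ r ∈ range R, c (r + 1)) * ((K * Fintype.card ι : ℕ) : ℝ) := by
        rw [← mul_sum, ← sum_mul]
        push_cast
        ring

end Pool.Agent.R184.Phantom
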