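import Mathlib

set_option autoImplicit false

namespace Pool.Agent.R184.Phantom

open Finset

/-- The edges of the complete graph on the vertex set `Fin n`. -/
abbrev Edge (n : ℕ) : Type := {e : Sym2 (Fin n) // ¬ e.IsDiag}

/-- A round of the game: the list of Maker's attempts (most recent first), each with its outcome
(`true`: the edge did not belong to PhantomBreaker, so Maker has it; `false`: the attempt failed),
and the set of edges which PhantomBreaker claims afterwards. -/
abbrev Round (n : ℕ) : Type := List (Edge n × Bool) × Finset (Edge n)

/-- The full record of the rounds played so far, most recent round first. -/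
abbrev History (n : ℕ) : Type := List (Round n)

/-- The edges obtained by Maker in a list of attempts. -/
def won {n : ℕ} (x : List (Edge n × Bool)) : Finset (Edge n) :=
  ((x.filter (fun p => p.2)).map Prod.fst).toFinset

/-- Maker's graph. -/
def makerGraph {n : ℕ} : History n → Finset (Edge n)
  | [] => ∅
  | r :: h => won r.1 ∪ makerGraph h

/-- PhantomBreaker's graph. -/
def breakerGraph {n : ℕ} : History n → Finset (Edge n)
  | [] => ∅
  | r :: h => r.2 ∪ breakerGraph h

/-- All outcomes of Maker's attempts so far, most recent first. -/
def outcomes {n : ℕ} : History n → List Bool
  | [] => []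
  | r :: h => r.1.map Prod.snd ++ outcomes h

/-- A (deterministic) strategy of Maker: the next edge which she chooses, as a function of the
outcomes of all her former attempts (most recent first); these and her strategy determine her
former choices, and she sees nothing else. -/
abbrev MakerStrategy (n : ℕ) : Type := List Bool → Edge n

/-- The attempts of Maker in one turn of `i` choices, when PhantomBreaker owns the edges `B` and
`past` is the list of outcomes of the former turns. She learns the outcome of every choice before
making the next one. -/
def makerTurn {n : ℕ} (σ : MakerStrategy n) (B : Finset (Edge n)) (past : List Bool) :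
    ℕ → List (Edge n × Bool)
  | 0 => []
  | i + 1 =>
    (σ ((makerTurn σ B past i).map Prod.snd ++ past),
      decide (σ ((makerTurn σ B past i).map Prod.snd ++ past) ∉ B)) :: makerTurn σ B past i

/-- The unclaimed edges after the rounds `h` and the further attempts `x` of Maker. -/
def free {n : ℕ} (h : History n) (x : List (Edge n × Bool)) : Finset (Edge n) :=
  (makerGraph h ∪ won x ∪ breakerGraph h)ᶜ

/-- A (deterministic) strategy of PhantomBreaker: knowing everything that has happened (the former
rounds `h` and the attempts `x` of the present round) he claims `b` unclaimed edges, or all
unclaimed edges if there are fewer than `b`. -/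
def BreakerStrategy (n b : ℕ) : Type :=
  (h : History n) → (x : List (Edge n × Bool)) →
    {F : Finset (Edge n) // F ⊆ free h x ∧ F.card = min b (free h x).card}

/-- One more round with bias `(a : b)`. -/
def step {n b : ℕ} (a : ℕ) (σ : MakerStrategy n) (τ : BreakerStrategy n b) (h : History n) :
    History n :=
  (makerTurn σ (breakerGraph h) (outcomes h) a,
    (τ h (makerTurn σ (breakerGraph h) (outcomes h) a)).1) :: h

/-- Maker's graph eventually has minimum degree at least one. (When the board is exhausted,
Maker's graph does not change any more.) -/
def MakerWins {n b : ℕ} (a : ℕ) (σ : MakerStrategy n) (τ : BreakerStrategy n b) : Prop :=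
  ∃ t : ℕ, ∀ v : Fin n, ∃ e ∈ makerGraph ((step a σ τ)^[t] []), v ∈ e.1

/-- Maker can ensure to win the `(a : b)` game on `K_n` with probability at least `p`: there is a
random strategy `S` (a random variable on some probability space) which wins with probability at
least `p` against every strategy of PhantomBreaker. -/
def MakerCanEnsure (a b n : ℕ) (p : ℝ) : Prop :=
  ∃ (Ω : Type) (_ : MeasurableSpace Ω) (μ : MeasureTheory.Measure Ω)
    (_ : MeasureTheory.IsProbabilityMeasure μ) (S : Ω → MakerStrategy n),
    (∀ (l : List Bool) (e : Edge n), MeasurableSet {ω | S ω l = e}) ∧
    ∀ τ : BreakerStrategy n b, p ≤ μ.real {ω | MakerWins a (S ω) τ}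

end Pool.Agent.R184.Phantom
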