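import Pool.Agent.R184.PhantomBound

set_option autoImplicit false

namespace Pool.Agent.R184.Phantom

open Finset Filter Topology MeasureTheory
open scoped Classical

variable {n : ℕ}

theorem measurable_turn {Ω : Type} [MeasurableSpace Ω] {S : Ω → MakerStrategy n}
    (hS : ∀ (l : List Bool) (e : Edge n), MeasurableSet {ω | S ω l = e})
    (B : Finset (Edge n)) (past : List Bool) (i : ℕ) (x : List (Edge n × Bool)) :
    MeasurableSet {ω | makerTurn (S ω) B past i = x} := by
  induction i generalizing x with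
  | zero =>
    by_cases hx : ([] : List (Edge n × Bool)) = x
    · simp [makerTurn, hx]
    · simp [makerTurn, hx]
  | succ i ih =>
    have h : {ω | makerTurn (S ω) B past (i + 1) = x} =
        ⋃ (y : List (Edge n × Bool)) (e : Edge n) (_ : (e, decide (e ∉ B)) :: y = x),
          ({ω | makerTurn (S ω) B past i = y} ∩ {ω | S ω (y.map Prod.snd ++ past) = e}) := by
      ext ω
      simp only [makerTurn, Set.mem_ofPred_eq, Set.mem_iUnion, Set.mem_inter_iff, exists_prop]
      constructor
      · intro hx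
        exact ⟨_, _, hx, rfl, rfl⟩
      · rintro ⟨y, e, h1, h2, h3⟩
        rw [h2, h3, h1]
    rw [h]
    refine MeasurableSet.iUnion (fun y => MeasurableSet.iUnion (fun e =>
      MeasurableSet.iUnion (fun _ => (ih y).inter (hS _ e))))

theorem measurable_play {Ω : Type} [MeasurableSpace Ω] {S : Ω → MakerStrategy n} {a b : ℕ}
    (hS : ∀ (l : List Bool) (e : Edge n), MeasurableSet {ω | S ω l = e})
    (τ : BreakerStrategy n b) (t : ℕ) (h : History n) :
    MeasurableSet {ω | (step a (S ω) τ)^[t] [] = h} := by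
  induction t generalizing h with
  | zero =>
    by_cases hx : ([] : History n) = h
    · simp [hx]
    · simp [hx]
  | succ t ih =>
    have h' : {ω | (step a (S ω) τ)^[t + 1] [] = h} =
        ⋃ (g : History n) (x : List (Edge n × Bool)) (_ : (x, (τ g x).1) :: g = h),
          ({ω | (step a (S ω) τ)^[t] [] = g} ∩
            {ω | makerTurn (S ω) (breakerGraph g) (outcomes g) a = x}) := by
      ext ω
      simp only [Set.mem_ofPred_eq, Set.mem_iUnion, Set.mem_inter_iff, exists_prop,
        Function.iterate_succ_apply']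
      constructor
      · intro hx
        exact ⟨_, _, hx, rfl, rfl⟩
      · rintro ⟨g, x, h1, h2, h3⟩
        rw [h2]
        unfold step
        rw [h3, h1]
    rw [h']
    refine MeasurableSet.iUnion (fun g => MeasurableSet.iUnion (fun x =>
      MeasurableSet.iUnion (fun _ => (ih g).inter (measurable_turn hS _ _ _ _))))

theorem measurable_wins {Ω : Type} [MeasurableSpace Ω] {S : Ω → MakerStrategy n} {a b : ℕ}
    (hS : ∀ (l : List Bool) (e : Edge n), MeasurableSet {ω | S ω l = e})
    (τ : BreakerStrategy n b) : MeasurableSet {ω | MakerWins a (S ω) τ} := by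
  have h : {ω | MakerWins a (S ω) τ} =
      ⋃ (t : ℕ) (g : History n) (_ : ∀ v : Fin n, ∃ e ∈ makerGraph g, v ∈ e.1),
        {ω | (step a (S ω) τ)^[t] [] = g} := by
    ext ω
    simp only [Set.mem_ofPred_eq, Set.mem_iUnion, exists_prop, MakerWins]
    constructor
    · rintro ⟨t, ht⟩
      exact ⟨t, _, ht, rfl⟩
    · rintro ⟨t, g, h1, h2⟩
      exact ⟨t, by rw [h2]; exact h1⟩
  rw [h]
  exact MeasurableSet.iUnion (fun t => MeasurableSet.iUnion (fun g =>
    MeasurableSet.iUnion (fun _ => measurable_play hS τ t g)))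

theorem bound_of_good {a b : ℕ} {ι : Type} [Fintype ι] [Nonempty ι] {c p : ℝ}
    (hg : Good n a b ι n c) (hp : MakerCanEnsure a b n p) : p ≤ c := by
  obtain ⟨fam, hfam⟩ := hg [] (by rw [attempted_nil]; simp)
  obtain ⟨Ω, _, μ, _, S, hS, hp⟩ := hp
  have hm : ∀ k, MeasurableSet {ω | MakerWins a (S ω) (fam k)} :=
    fun k => measurable_wins hS (fam k)
  have h1 : ∑ k : ι, μ.real {ω | MakerWins a (S ω) (fam k)} =
      ∫ ω, ∑ k : ι, Set.indicator {ω | MakerWins a (S ω) (fam k)} (fun _ => (1 : ℝ)) ω ∂μ := by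
    rw [integral_finsetSum]
    · refine Finset.sum_congr rfl (fun k _ => ?_)
      rw [integral_indicator_const _ (hm k)]
      simp
    · intro k _
      exact (integrable_const (1 : ℝ)).indicator (hm k)
  have h2 : ∀ ω, ∑ k : ι, Set.indicator {ω | MakerWins a (S ω) (fam k)} (fun _ => (1 : ℝ)) ω ≤
      c * Fintype.card ι := by
    intro ω
    have h3 : ∑ k : ι, Set.indicator {ω | MakerWins a (S ω) (fam k)} (fun _ => (1 : ℝ)) ω =
        ((univ.filter (fun k => Survive a (S ω) (fam k) [])).card : ℝ) := by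
      rw [card_filter]
      push_cast
      refine Finset.sum_congr rfl (fun k _ => ?_)
      by_cases hk : MakerWins a (S ω) (fam k)
      · rw [Set.indicator_of_mem (show ω ∈ {ω | MakerWins a (S ω) (fam k)} from hk)]
        rw [if_pos (show Survive a (S ω) (fam k) [] from hk)]
      · rw [Set.indicator_of_notMem (show ω ∉ {ω | MakerWins a (S ω) (fam k)} from hk)]
        rw [if_neg (show ¬ Survive a (S ω) (fam k) [] from hk)]
    rw [h3]
    exact hfam (S ω)
  have h4 : ∫ ω, ∑ k : ι, Set.indicator {ω | MakerWins a (S ω) (fam k)} (fun _ => (1 : ℝ)) ω ∂μ ≤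
      c * Fintype.card ι := by
    calc _ ≤ ∫ _, c * Fintype.card ι ∂μ := by
          refine integral_mono ?_ (integrable_const _) h2
          refine integrable_finsetSum _ (fun k _ => ?_)
          exact (integrable_const (1 : ℝ)).indicator (hm k)
      _ = c * Fintype.card ι := by simp
  have h5 : (Fintype.card ι : ℝ) * p ≤ ∑ k : ι, μ.real {ω | MakerWins a (S ω) (fam k)} := by
    have := Finset.card_nsmul_le_sum (univ : Finset ι)
      (fun k => μ.real {ω | MakerWins a (S ω) (fam k)}) p (fun k _ => hp (fam k))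
    rwa [nsmul_eq_mul, card_univ] at this
  have h6 : (0 : ℝ) < Fintype.card ι := by
    have : 0 < Fintype.card ι := Fintype.card_pos
    exact_mod_cast this
  have h7 : (Fintype.card ι : ℝ) * p ≤ Fintype.card ι * c := by
    calc _ ≤ _ := h5
      _ = _ := h1
      _ ≤ _ := h4
      _ = _ := by ring
  exact le_of_mul_le_mul_left h7 h6

/-- Maker's winning probability is asymptotically at most `(3 / 4) / m!`. -/
theorem main_bound (a m : ℕ) (ha : 0 < a) (hm : 1 < m) (ε : ℝ) (hε : 0 < ε) :
    ∀ᶠ n : ℕ in atTop, ∀ p : ℝ, MakerCanEnsure a (2 * a * m) n p →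
      p ≤ 3 / 4 / m.factorial + ε := by
  set b := 2 * a * m with hb
  have hb0 : 0 < b := by positivity
  set f : ℕ → ℝ := fun n => ((2 * a * (n / b + 1) : ℕ) : ℝ) / n with hf
  set g : ℕ → ℝ := fun n => 1 / ((n / b + 1 : ℕ) : ℝ) with hg
  have haR : (0 : ℝ) < a := by exact_mod_cast ha
  have hmR : (0 : ℝ) < m := by
    have : 0 < m := by omega
    exact_mod_cast this
  have hbR : (0 : ℝ) < b := by exact_mod_cast hb0
  have hbe : (b : ℝ) = 2 * a * m := by rw [hb]; push_cast; ring
  have hdiv1 : ∀ n : ℕ, (n : ℝ) / b ≤ ((n / b + 1 : ℕ) : ℝ) := by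
    intro n
    rw [div_le_iff₀ hbR]
    have h1 : n < b * (n / b + 1) := Nat.lt_mul_div_succ n hb0
    have h2 : (n : ℝ) ≤ ((b * (n / b + 1) : ℕ) : ℝ) := by exact_mod_cast h1.le
    push_cast at h2 ⊢
    linarith
  have hdiv2 : ∀ n : ℕ, ((n / b + 1 : ℕ) : ℝ) ≤ (n : ℝ) / b + 1 := by
    intro n
    push_cast
    have := Nat.cast_div_le (α := ℝ) (m := n) (n := b)
    linarith
  have hinv : Tendsto (fun n : ℕ => (1 : ℝ) / n) atTop (𝓝 0) :=
    tendsto_one_div_atTop_nhds_zero_nat
  have hft : Tendsto f atTop (𝓝 (1 / m)) := by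
    have hup : Tendsto (fun n : ℕ => (1 : ℝ) / m + 2 * a * (1 / n)) atTop (𝓝 (1 / m)) := by
      have := (tendsto_const_nhds (x := (1 : ℝ) / m)).add (hinv.const_mul (2 * (a : ℝ)))
      simpa using this
    refine tendsto_of_tendsto_of_tendsto_of_le_of_le' tendsto_const_nhds hup ?_ ?_
    · filter_upwards [eventually_gt_atTop 0] with n hn
      have hnR : (0 : ℝ) < n := by exact_mod_cast hn
      show 1 / (m : ℝ) ≤ ((2 * a * (n / b + 1) : ℕ) : ℝ) / n
      rw [le_div_iff₀ hnR]
      have h1 := hdiv1 n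
      have h2 : (1 / m : ℝ) * n = 2 * a * (n / b) := by
        rw [hbe]; field_simp
      rw [h2]
      push_cast at h1 ⊢
      exact mul_le_mul_of_nonneg_left h1 (by positivity)
    · filter_upwards [eventually_gt_atTop 0] with n hn
      have hnR : (0 : ℝ) < n := by exact_mod_cast hn
      show ((2 * a * (n / b + 1) : ℕ) : ℝ) / n ≤ 1 / m + 2 * a * (1 / n)
      rw [div_le_iff₀ hnR]
      have h1 := hdiv2 n
      have h2 : (1 / m + 2 * a * (1 / n) : ℝ) * n = 2 * a * (n / b + 1) := by
        rw [hbe]; field_simp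
      rw [h2]
      push_cast at h1 ⊢
      exact mul_le_mul_of_nonneg_left h1 (by positivity)
  have hgt : Tendsto g atTop (𝓝 0) := by
    have hup : Tendsto (fun n : ℕ => (b : ℝ) * (1 / n)) atTop (𝓝 0) := by
      have := hinv.const_mul (b : ℝ)
      simpa using this
    refine tendsto_of_tendsto_of_tendsto_of_le_of_le' tendsto_const_nhds hup ?_ ?_
    · filter_upwards with n
      positivity
    · filter_upwards [eventually_gt_atTop 0] with n hn
      have hnR : (0 : ℝ) < n := by exact_mod_cast hn
      show 1 / ((n / b + 1 : ℕ) : ℝ) ≤ b * (1 / n)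
      have h3 : (b : ℝ) * (1 / n) = 1 / (n / b) := by field_simp
      rw [h3]
      exact one_div_le_one_div_of_le (by positivity) (hdiv1 n)
  have hW := tendsto_W (m := m) (by omega) (m - 2) (by omega) hft hgt
  have hm2 : m - 2 + 2 = m := by omega
  rw [hm2] at hW
  have hev : ∀ᶠ n : ℕ in atTop, (m - 1) * (2 * a * (n / b + 1)) < n := by
    -- the limit of the quotient is `(m - 1) / m < 1`
    have h1 : Tendsto (fun n => ((m : ℝ) - 1) * f n) atTop (𝓝 (((m : ℝ) - 1) * (1 / m))) :=
      hft.const_mul _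
    have h2 : ((m : ℝ) - 1) * (1 / m) < 1 := by
      rw [mul_one_div, div_lt_one hmR]
      linarith
    filter_upwards [h1.eventually (gt_mem_nhds h2), eventually_gt_atTop 0] with n hn hn0
    have hnR : (0 : ℝ) < n := by exact_mod_cast hn0
    have h3 : (((m - 1) * (2 * a * (n / b + 1)) : ℕ) : ℝ) < n := by
      have h4 : (((m - 1) * (2 * a * (n / b + 1)) : ℕ) : ℝ) = ((m : ℝ) - 1) * f n * n := by
        rw [hf, Nat.cast_mul, Nat.cast_sub (by omega)]
        field_simp
        push_cast
        ring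
      rw [h4]
      nlinarith
    exact_mod_cast h3
  filter_upwards [hev, hW.eventually (gt_mem_nhds (lt_add_of_pos_right _ hε)),
    eventually_gt_atTop 0] with n hn1 hn2 hn3 p hp
  have hK0 : 0 < n.factorial := Nat.factorial_pos n
  obtain ⟨_, ι, _, hne, hgood⟩ := good_chain (n := n) (a := a) (b := b) (K := n.factorial)
    (m := m) (R := n / b + 1) ha (Nat.succ_pos _)
    (fun i h1 h2 => Nat.dvd_factorial h1 h2) hK0
    (by
      have h1 : n < b * (n / b + 1) := Nat.lt_mul_div_succ n hb0
      omega) hn1 (m - 2) (by omega)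
  rw [Nat.sub_self, Nat.zero_mul, Nat.sub_zero] at hgood
  have := bound_of_good hgood hp
  exact this.trans hn2.le

end Pool.Agent.R184.Phantom
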