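import Pool.Agent.R184.PhantomCore

set_option autoImplicit false

namespace Pool.Agent.R184.Phantom

open Finset
open scoped Classical

variable {n : ℕ}

/-- A round in which PhantomBreaker claims nothing. -/
def nstep (a : ℕ) (σ : MakerStrategy n) (h : History n) : History n :=
  (makerTurn σ (breakerGraph h) (outcomes h) a, (∅ : Finset (Edge n))) :: h

/-- Same attempts and outcomes, same edges of PhantomBreaker away from `v`. -/
def Sim (v : Fin n) (h h' : History n) : Prop :=
  h.map Prod.fst = h'.map Prod.fst ∧
    ∀ e : Edge n, v ∉ e.1 → (e ∈ breakerGraph h ↔ e ∈ breakerGraph h')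

theorem attempted_nstep_mono (a : ℕ) (σ : MakerStrategy n) (h : History n) :
    attempted h ⊆ attempted (nstep a σ h) := by
  unfold nstep
  rw [attempted_cons]
  exact subset_union_right

/-- The rounds before `v` is attempted. -/
theorem phaseA {a b : ℕ} {σ : MakerStrategy n} {v : Fin n}
    {τ : BreakerStrategy n b} (hτ : ∀ h x, v ∉ attempted h → τ h x = fill b v h x)
    (h₀ : History n) (t : ℕ) (hv : v ∉ attempted ((nstep a σ)^[t] h₀)) :
    (∃ t', t' ≤ t ∧ v ∉ attempted ((step a σ τ)^[t'] h₀) ∧
      star v ⊆ breakerGraph ((step a σ τ)^[t'] h₀)) ∨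
    (Sim v ((step a σ τ)^[t] h₀) ((nstep a σ)^[t] h₀) ∧
      b * t ≤ (star v ∩ breakerGraph ((step a σ τ)^[t] h₀)).card) := by
  induction t with
  | zero =>
    right
    exact ⟨⟨rfl, fun _ _ => Iff.rfl⟩, by simp⟩
  | succ t ih =>
    rw [Function.iterate_succ_apply'] at hv
    have hv0 : v ∉ attempted ((nstep a σ)^[t] h₀) := fun h => hv (attempted_nstep_mono _ _ _ h)
    rcases ih hv0 with ⟨t', ht', h1, h2⟩ | ⟨hsim, hcard⟩
    · exact Or.inl ⟨t', by omega, h1, h2⟩
    · rw [Function.iterate_succ_apply', Function.iterate_succ_apply']
      set H := (step a σ τ)^[t] h₀ with hH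
      set N := (nstep a σ)^[t] h₀ with hN
      have hvH : v ∉ attempted H := by rwa [attempted_congr hsim.1]
      have hout : outcomes H = outcomes N := outcomes_congr hsim.1
      have hvt : v ∉ vts (makerTurn σ (breakerGraph N) (outcomes N) a) := by
        unfold nstep at hv
        rw [attempted_cons, mem_union, not_or] at hv
        exact hv.1
      have hturn : makerTurn σ (breakerGraph H) (outcomes H) a =
          makerTurn σ (breakerGraph N) (outcomes N) a := by
        rw [hout]
        exact makerTurn_congr hsim.2 a hvt
      have hvt' : v ∉ vts (makerTurn σ (breakerGraph H) (outcomes H) a) := by rwa [hturn]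
      have hvH' : v ∉ attempted (step a σ τ H) := by
        unfold step
        rw [attempted_cons, mem_union, not_or]
        exact ⟨hvt', hvH⟩
      have hF := hτ H (makerTurn σ (breakerGraph H) (outcomes H) a) hvH
      have hB : breakerGraph (step a σ τ H) =
          (fill b v H (makerTurn σ (breakerGraph H) (outcomes H) a)).1 ∪ breakerGraph H := by
        unfold step
        rw [hF]
        rfl
      -- if everything free at `v` is claimed, the star is full
      have hfull : free H (makerTurn σ (breakerGraph H) (outcomes H) a) ∩ star v ⊆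
          (fill b v H (makerTurn σ (breakerGraph H) (outcomes H) a)).1 →
          star v ⊆ breakerGraph (step a σ τ H) := by
        intro hsub e he
        rw [hB]
        by_cases heB : e ∈ breakerGraph H
        · exact mem_union_right _ heB
        · refine mem_union_left _ (hsub (mem_inter.mpr ⟨?_, he⟩))
          rw [free_free]
          refine ⟨fun h => hvH (mem_attempted_of_mem_makerGraph h (mem_star.mp he)), ?_, heB⟩
          intro h
          exact hvt' (mem_vts.mpr ⟨_, mem_won.mp h, mem_star.mp he⟩)
      rcases fill_spec b v H (makerTurn σ (breakerGraph H) (outcomes H) a) with ⟨h1, h2⟩ | h1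
      · right
        refine ⟨⟨?_, ?_⟩, ?_⟩
        · simp only [step, nstep, List.map_cons]
          rw [hturn, hsim.1]
        · intro e he
          rw [hB, mem_union]
          have : e ∉ (fill b v H (makerTurn σ (breakerGraph H) (outcomes H) a)).1 :=
            fun h => he (mem_star.mp (h1 h))
          simp only [this, false_or]
          rw [hsim.2 e he]
          simp [nstep, breakerGraph]
        · rw [hB]
          have hdisj : Disjoint
              (fill b v H (makerTurn σ (breakerGraph H) (outcomes H) a)).1
              (star v ∩ breakerGraph H) := by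
            rw [disjoint_left]
            intro e he he'
            have := (fill b v H (makerTurn σ (breakerGraph H) (outcomes H) a)).2.1 he
            rw [free_free] at this
            exact this.2.2 (mem_inter.mp he').2
          have hsub : (fill b v H (makerTurn σ (breakerGraph H) (outcomes H) a)).1 ∪
              (star v ∩ breakerGraph H) ⊆ star v ∩
                ((fill b v H (makerTurn σ (breakerGraph H) (outcomes H) a)).1 ∪
                  breakerGraph H) := by
            intro e he
            rcases mem_union.mp he with he | he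
            · exact mem_inter.mpr ⟨h1 he, mem_union_left _ he⟩
            · exact mem_inter.mpr ⟨(mem_inter.mp he).1, mem_union_right _ (mem_inter.mp he).2⟩
          calc b * (t + 1) = b + b * t := by ring
            _ ≤ _ := by
              have := card_le_card hsub
              rw [card_union_of_disjoint hdisj, h2] at this
              omega
      · left
        refine ⟨t + 1, le_rfl, ?_, ?_⟩
        · rw [Function.iterate_succ_apply']; exact hvH'
        · rw [Function.iterate_succ_apply']; exact hfull h1

/-- If `v` is never attempted during `R` rounds, PhantomBreaker isolates it. -/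
theorem phase_full {a b R : ℕ} (hR : n - 1 ≤ b * R) {σ : MakerStrategy n}
    {v : Fin n} {τ : BreakerStrategy n b} (hτ : ∀ h x, v ∉ attempted h → τ h x = fill b v h x)
    (h₀ : History n) (hv : v ∉ attempted ((nstep a σ)^[R] h₀)) : ¬ Survive a σ τ h₀ := by
  rcases phaseA hτ h₀ R hv with ⟨t', _, h1, h2⟩ | ⟨h1, h2⟩
  · exact not_survive_of_full a σ τ h₀ v t' h1 h2
  · refine not_survive_of_full a σ τ h₀ v R ?_ ?_
    · rwa [attempted_congr h1.1]
    · have h3 : (star v).card ≤ (star v ∩ breakerGraph ((step a σ τ)^[R] h₀)).card :=
        (card_star_le v).trans (hR.trans h2)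
      have h4 := eq_of_subset_of_card_le
        (inter_subset_left : star v ∩ breakerGraph ((step a σ τ)^[R] h₀) ⊆ star v) h3
      intro e he
      rw [← h4] at he
      exact (mem_inter.mp he).2

/-- The history up to (and including) the first round in which `v` is attempted. -/
noncomputable def firstHit (v : Fin n) : History n → History n
  | [] => []
  | r :: h => if v ∈ attempted h then firstHit v h else r :: h

/-- Fill the star of `v` until `v` has been attempted, then follow the strategy assigned to the
history at that moment. -/
noncomputable def glue {b : ℕ} (v : Fin n) (fam : History n → BreakerStrategy n b) :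
    BreakerStrategy n b :=
  fun h x => if v ∈ attempted h then fam (firstHit v h) h x else fill b v h x

theorem step_congr {b : ℕ} {a : ℕ} {σ : MakerStrategy n} {τ τ' : BreakerStrategy n b}
    {h : History n} (hh : ∀ x, τ h x = τ' h x) : step a σ τ h = step a σ τ' h := by
  unfold step
  rw [hh]

theorem firstHit_step_pos {b : ℕ} {a : ℕ} {σ : MakerStrategy n} {τ : BreakerStrategy n b}
    {v : Fin n} {h : History n} (hh : v ∈ attempted h) :
    firstHit v (step a σ τ h) = firstHit v h := by
  unfold step firstHit
  rw [if_pos hh]
  cases h <;> rfl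

theorem firstHit_step_neg {b : ℕ} {a : ℕ} {σ : MakerStrategy n} {τ : BreakerStrategy n b}
    {v : Fin n} {h : History n} (hh : v ∉ attempted h) :
    firstHit v (step a σ τ h) = step a σ τ h := by
  unfold step firstHit
  rw [if_neg hh]

theorem glue_pos {b : ℕ} {v : Fin n} {fam : History n → BreakerStrategy n b} {h : History n}
    (hh : v ∈ attempted h) (x : List (Edge n × Bool)) :
    glue v fam h x = fam (firstHit v h) h x := by
  unfold glue
  rw [if_pos hh]

theorem glue_neg {b : ℕ} {v : Fin n} {fam : History n → BreakerStrategy n b} {h : History n}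
    (hh : v ∉ attempted h) (x : List (Edge n × Bool)) :
    glue v fam h x = fill b v h x := by
  unfold glue
  rw [if_neg hh]

theorem glue_survive {a b R : ℕ} (hR : n - 1 ≤ b * R) {σ : MakerStrategy n}
    {v : Fin n} (fam : History n → BreakerStrategy n b) (h₀ : History n)
    (hv : v ∉ attempted h₀) (hs : Survive a σ (glue v fam) h₀) :
    ∃ r < R, v ∉ attempted ((nstep a σ)^[r] h₀) ∧ v ∈ attempted ((nstep a σ)^[r + 1] h₀) ∧
      Survive a σ (fam ((step a σ (fill b v))^[r + 1] h₀))
        ((step a σ (fill b v))^[r + 1] h₀) := by
  have hτ : ∀ h x, v ∉ attempted h → glue v fam h x = fill b v h x := by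
    intro h x hh
    exact glue_neg hh x
  by_cases hN : v ∈ attempted ((nstep a σ)^[R] h₀)
  swap
  · exact absurd hs (phase_full hR hτ h₀ hN)
  -- the first round in which `v` is attempted
  have hex : ∃ r, v ∈ attempted ((nstep a σ)^[r] h₀) := ⟨R, hN⟩
  obtain ⟨m, hm1, hm2⟩ : ∃ m, v ∈ attempted ((nstep a σ)^[m] h₀) ∧
      ∀ k < m, v ∉ attempted ((nstep a σ)^[k] h₀) :=
    ⟨Nat.find hex, Nat.find_spec hex, fun k hk => Nat.find_min hex hk⟩
  have hm0 : m ≠ 0 := by
    rintro rfl
    exact hv hm1
  obtain ⟨r, rfl⟩ := Nat.exists_eq_succ_of_ne_zero hm0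
  have hrR : r < R := by
    by_contra hcon
    exact hm2 R (by omega) hN
  have hvr : v ∉ attempted ((nstep a σ)^[r] h₀) := hm2 r (by omega)
  refine ⟨r, hrR, hvr, hm1, ?_⟩
  rcases phaseA hτ h₀ r hvr with ⟨t', _, h1, h2⟩ | ⟨hsim, _⟩
  · exact absurd hs (not_survive_of_full a σ _ h₀ v t' h1 h2)
  -- the two plays agree until then
  have hunatt : ∀ s ≤ r, v ∉ attempted ((step a σ (glue v fam))^[s] h₀) := by
    intro s hs' h
    have := attempted_iterate_mono a σ (glue v fam) h₀ s r hs' h
    rw [attempted_congr hsim.1] at this
    exact hvr this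
  have hagree : ∀ s ≤ r + 1, (step a σ (glue v fam))^[s] h₀ = (step a σ (fill b v))^[s] h₀ := by
    intro s
    induction s with
    | zero => intro _; rfl
    | succ s ih =>
      intro hs'
      rw [Function.iterate_succ_apply', Function.iterate_succ_apply', ← ih (by omega)]
      exact step_congr (fun x => hτ _ _ (hunatt s (by omega)))
  set h₁ := (step a σ (fill b v))^[r + 1] h₀ with hh₁
  -- in round `r + 1` the vertex `v` is attempted in the real play too
  have hatt : v ∈ attempted h₁ := by
    rw [hh₁, ← hagree (r + 1) le_rfl]
    by_contra hcon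
    rw [Function.iterate_succ_apply'] at hcon hm1
    unfold step at hcon
    rw [attempted_cons, mem_union, not_or] at hcon
    have hturn := makerTurn_congr (σ := σ) (B := breakerGraph ((nstep a σ)^[r] h₀))
      (B' := breakerGraph ((step a σ (glue v fam))^[r] h₀))
      (past := outcomes ((step a σ (glue v fam))^[r] h₀)) (v := v)
      (fun e he => (hsim.2 e he).symm) a hcon.1
    rw [outcomes_congr hsim.1] at hturn
    unfold nstep at hm1
    rw [attempted_cons, mem_union] at hm1
    rcases hm1 with hm1 | hm1
    · have h5 : v ∈ vts (makerTurn σ (breakerGraph ((nstep a σ)^[r] h₀))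
          (outcomes ((nstep a σ)^[r] h₀)) a) := hm1
      rw [hturn, ← outcomes_congr hsim.1] at h5
      exact hcon.1 h5
    · exact hvr hm1
  -- afterwards the strategy is that of `h₁`
  have hfirst : ∀ s, v ∈ attempted ((step a σ (glue v fam))^[s] h₁) ∧
      firstHit v ((step a σ (glue v fam))^[s] h₁) = h₁ := by
    intro s
    induction s with
    | zero =>
      refine ⟨hatt, ?_⟩
      show firstHit v h₁ = h₁
      rw [hh₁, ← hagree (r + 1) le_rfl, Function.iterate_succ_apply']
      exact firstHit_step_neg (hunatt r le_rfl)
    | succ s ih =>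
      rw [Function.iterate_succ_apply']
      exact ⟨attempted_step_mono a σ _ _ ih.1, (firstHit_step_pos ih.1).trans ih.2⟩
  have hafter : ∀ s, (step a σ (glue v fam))^[s] h₁ = (step a σ (fam h₁))^[s] h₁ := by
    intro s
    induction s with
    | zero => rfl
    | succ s ih =>
      rw [Function.iterate_succ_apply', Function.iterate_succ_apply', ← ih]
      refine step_congr (fun x => ?_)
      rw [glue_pos (hfirst s).1, (hfirst s).2]
  obtain ⟨t, ht⟩ := hs
  rcases le_total t (r + 1) with htr | htr
  · refine ⟨0, fun w => ?_⟩
    obtain ⟨e, he, hw⟩ := ht w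
    refine ⟨e, ?_, hw⟩
    have := makerGraph_iterate_mono a σ (glue v fam) h₀ t (r + 1) htr he
    rw [hagree (r + 1) le_rfl] at this
    exact this
  · refine ⟨t - (r + 1), fun w => ?_⟩
    obtain ⟨e, he, hw⟩ := ht w
    refine ⟨e, ?_, hw⟩
    rw [← hafter, hh₁, ← hagree (r + 1) le_rfl, ← Function.iterate_add_apply]
    have : t - (r + 1) + (r + 1) = t := by omega
    rw [this]
    exact he

end Pool.Agent.R184.Phantom
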