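import Pool.Agent.R184.PolyMono

set_option autoImplicit false

namespace Pool.Agent.R184.Poly

/-- The vertical neighbour outside the block of `c` (blocks have height two). -/
def outV (c : Cell) : Cell := if c.2 % 2 = 0 then (c.1, c.2 - 1) else (c.1, c.2 + 1)

/-- The vertical neighbour inside the block of `c`. -/
def inV (c : Cell) : Cell := if c.2 % 2 = 0 then (c.1, c.2 + 1) else (c.1, c.2 - 1)

theorem outV_outV (c : Cell) : outV (outV c) = c := by
  obtain ⟨x, y⟩ := c
  unfold outV
  by_cases h : y % 2 = 0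
  · have h' : ¬ (y - 1) % 2 = 0 := by omega
    simp [h, h']
  · have h' : (y + 1) % 2 = 0 := by omega
    simp [h, h']

theorem inV_inV (c : Cell) : inV (inV c) = c := by
  obtain ⟨x, y⟩ := c
  unfold inV
  by_cases h : y % 2 = 0
  · have h' : ¬ (y + 1) % 2 = 0 := by omega
    simp [h, h']
  · have h' : (y - 1) % 2 = 0 := by omega
    simp [h, h']

theorem outV_ne (c : Cell) : outV c ≠ c := by
  obtain ⟨x, y⟩ := c
  unfold outV
  by_cases h : y % 2 = 0 <;> simp [h]

theorem inV_ne (c : Cell) : inV c ≠ c := by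
  obtain ⟨x, y⟩ := c
  unfold inV
  by_cases h : y % 2 = 0 <;> simp [h]

theorem inV_fst (c : Cell) : (inV c).1 = c.1 := by
  unfold inV
  by_cases h : c.2 % 2 = 0 <;> simp [h]

/-- The second partner. -/
def sideK (k : ℤ) (c : Cell) : Cell :=
  if c.1 % k = 0 then (c.1 - 1, c.2) else if c.1 % k = k - 1 then (c.1 + 1, c.2) else inV c

theorem sub_one_emod {k x : ℤ} (hk : 3 ≤ k) (h : x % k = 0) : (x - 1) % k = k - 1 := by
  obtain ⟨q, rfl⟩ := Int.dvd_of_emod_eq_zero h
  have h1 : k * q - 1 = (k - 1) + k * (q - 1) := by ring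
  rw [h1, Int.add_mul_emod_self_left]
  exact Int.emod_eq_of_lt (by omega) (by omega)

theorem add_one_emod {k x : ℤ} (h : x % k = k - 1) : (x + 1) % k = 0 := by
  have h1 := Int.emod_add_mul_ediv x k
  have h2 : x + 1 = k * (x / k + 1) := by
    rw [h] at h1
    linarith
  rw [h2]
  exact Int.mul_emod_right k _

theorem sideK_sideK {k : ℤ} (hk : 3 ≤ k) (c : Cell) : sideK k (sideK k c) = c := by
  unfold sideK
  by_cases h0 : c.1 % k = 0
  · have h1 := sub_one_emod hk h0
    have h2 : ¬ (c.1 - 1) % k = 0 := by omega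
    simp [h0, h1]
    omega
  · by_cases h1 : c.1 % k = k - 1
    · have h2 := add_one_emod h1
      have h3 : ¬ k - 1 = 0 := by omega
      simp [h1, h2, h3]
    · simp only [h0, h1, if_false]
      rw [inV_fst]
      simp only [h0, h1, if_false]
      exact inV_inV c

/-- Partner assignment of the tiling of the plane by `2 × k` blocks. -/
def blockPairing (k : ℤ) (hk : 3 ≤ k) : Pairing where
  K c := (outV c, sideK k c)
  ne_fst c := outV_ne c
  ne_snd c := by
    unfold sideK
    by_cases h0 : c.1 % k = 0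
    · simp [h0, Prod.ext_iff]
    · by_cases h1 : c.1 % k = k - 1
      · have : ¬ k - 1 = 0 := by omega
        simp [h1, this, Prod.ext_iff]
      · simpa [h0, h1] using inV_ne c
  symm_fst c := Or.inl (outV_outV c).symm
  symm_snd c := Or.inr (sideK_sideK hk c).symm

/-- A straight strip of `k` cells with both ends bent to the same side. -/
def U (k : ℕ) : Finset Cell :=
  (Finset.range k).image (fun i : ℕ => (((i : ℤ), (0 : ℤ)) : Cell)) ∪ {(0, 1), ((k : ℤ) - 1, 1)}

theorem ediv_add_one {k x : ℤ} (hk : 3 ≤ k) (h : x % k ≠ k - 1) :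
    (x + 1) / k = x / k ∧ (x + 1) % k = x % k + 1 := by
  have h1 := Int.emod_add_mul_ediv x k
  have h2 := Int.emod_nonneg x (show k ≠ 0 by omega)
  have h3 := Int.emod_lt_of_pos x (show 0 < k by omega)
  have h4 : x + 1 = (x % k + 1) + k * (x / k) := by linarith
  constructor
  · rw [h4, Int.add_mul_ediv_left _ _ (by omega), Int.ediv_eq_zero_of_lt (by omega) (by omega)]
    ring
  · conv_lhs => rw [h4]
    rw [Int.add_mul_emod_self_left, Int.emod_eq_of_lt (by omega) (by omega)]

theorem ediv_sub_one {k x : ℤ} (hk : 3 ≤ k) (h : x % k ≠ 0) :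
    (x - 1) / k = x / k ∧ (x - 1) % k = x % k - 1 := by
  have h1 := Int.emod_add_mul_ediv x k
  have h2 := Int.emod_nonneg x (show k ≠ 0 by omega)
  have h3 := Int.emod_lt_of_pos x (show 0 < k by omega)
  have h4 : x - 1 = (x % k - 1) + k * (x / k) := by linarith
  constructor
  · rw [h4, Int.add_mul_ediv_left _ _ (by omega), Int.ediv_eq_zero_of_lt (by omega) (by omega)]
    ring
  · conv_lhs => rw [h4]
    rw [Int.add_mul_emod_self_left, Int.emod_eq_of_lt (by omega) (by omega)]

/-- Adjacent cells which are not partners. -/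
theorem block_adj {k : ℤ} (hk : 3 ≤ k) {c d : Cell} (h : Adj c d)
    (hr : ¬ (blockPairing k hk).Rel c d) :
    d.1 / k = c.1 / k ∧ d.2 / 2 = c.2 / 2 ∧
      ((d.1 % k = c.1 % k + 1 ∧ d.2 = c.2) ∨ (d.1 % k = c.1 % k - 1 ∧ d.2 = c.2) ∨
        (d.1 = c.1 ∧ d.2 ≠ c.2 ∧ (c.1 % k = 0 ∨ c.1 % k = k - 1))) := by
  unfold Pairing.Rel at hr
  rw [not_or] at hr
  obtain ⟨h1, h2⟩ := hr
  simp only [blockPairing] at h1 h2
  have hc := Int.emod_nonneg c.1 (show k ≠ 0 by omega)
  have hc' := Int.emod_lt_of_pos c.1 (show 0 < k by omega)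
  rcases adj_cases h with rfl | rfl | rfl | rfl
  · have h3 : c.1 % k ≠ k - 1 := by
      intro h3
      apply h2
      have : ¬ k - 1 = 0 := by omega
      unfold sideK
      simp [h3, this]
    obtain ⟨h4, h5⟩ := ediv_add_one hk h3
    exact ⟨h4, rfl, Or.inl ⟨h5, rfl⟩⟩
  · have h3 : c.1 % k ≠ 0 := by
      intro h3
      apply h2
      unfold sideK
      simp [h3]
    obtain ⟨h4, h5⟩ := ediv_sub_one hk h3
    exact ⟨h4, rfl, Or.inr (Or.inl ⟨h5, rfl⟩)⟩
  · have h3 : c.2 % 2 = 0 := by
      by_contra h3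
      apply h1
      unfold outV
      simp [h3]
    refine ⟨rfl, ?_, Or.inr (Or.inr ⟨rfl, ?_, ?_⟩)⟩
    · show (c.2 + 1) / 2 = c.2 / 2
      omega
    · show c.2 + 1 ≠ c.2
      omega
    · by_contra hcon
      rw [not_or] at hcon
      apply h2
      unfold sideK inV
      simp [hcon.1, hcon.2, h3]
  · have h3 : ¬ c.2 % 2 = 0 := by
      intro h3
      apply h1
      unfold outV
      simp [h3]
    refine ⟨rfl, ?_, Or.inr (Or.inr ⟨rfl, ?_, ?_⟩)⟩
    · show (c.2 - 1) / 2 = c.2 / 2
      omega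
    · show c.2 - 1 ≠ c.2
      omega
    · by_contra hcon
      rw [not_or] at hcon
      apply h2
      unfold sideK inV
      simp [hcon.1, hcon.2, h3]

/-- The cut property of a polyomino. -/
theorem exists_cut {P : Finset Cell} (hP : IsPolyomino P) (Z : Cell → Prop) {a b : Cell}
    (ha : a ∈ P) (hb : b ∈ P) (hZa : Z a) (hZb : ¬ Z b) :
    ∃ c ∈ P, ∃ d ∈ P, Adj c d ∧ Z c ∧ ¬ Z d := by
  by_contra hcon
  push Not at hcon
  have key : b ∈ P ∧ Z b := by
    have h1 := hP.2 a ha b hb
    clear hb hZb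
    induction h1 with
    | refl => exact ⟨ha, hZa⟩
    | tail _ hxy ih => exact ⟨hxy.2, hcon _ ih.1 _ hxy.2 hxy.1 ih.2⟩
  exact hZb key.2

/-- Every winner contains an ancestor of `U k`. -/
theorem winner_U {F : Set (Finset Cell)} (hF : Winner F) (hpoly : ∀ P ∈ F, IsPolyomino P)
    (k : ℕ) (hk : 3 ≤ k) : ∃ P ∈ F, Ancestor P (U k) := by
  have hkZ : (3 : ℤ) ≤ k := by exact_mod_cast hk
  obtain ⟨P, hP, g, hg, hfree⟩ := hF.exists_free (blockPairing k hkZ)
  refine ⟨P, hP, ?_⟩
  have hPp := hpoly P hP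
  obtain ⟨a, ha⟩ := hPp.1
  have hadj : ∀ c ∈ P, ∀ d ∈ P, Adj c d → (g d).1 / k = (g c).1 / k ∧
      (g d).2 / 2 = (g c).2 / 2 ∧
      (((g d).1 % k = (g c).1 % k + 1 ∧ (g d).2 = (g c).2) ∨
        ((g d).1 % k = (g c).1 % k - 1 ∧ (g d).2 = (g c).2) ∨
        ((g d).1 = (g c).1 ∧ (g d).2 ≠ (g c).2 ∧
          ((g c).1 % k = 0 ∨ (g c).1 % k = (k : ℤ) - 1))) :=
    fun c hc d hd h => block_adj hkZ (hg.adj h) (hfree c hc d hd)
  set q := (g a).1 / k with hq
  set p := (g a).2 / 2 with hp
  have hblock : ∀ b ∈ P, (g b).1 / k = q ∧ (g b).2 / 2 = p := by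
    intro b hb
    by_contra hcon
    obtain ⟨c, hc, d, hd, h1, h2, h3⟩ := exists_cut hPp
      (fun b => (g b).1 / k = q ∧ (g b).2 / 2 = p) ha hb ⟨rfl, rfl⟩ hcon
    obtain ⟨h4, h5, _⟩ := hadj c hc d hd h1
    exact h3 ⟨h4.trans h2.1, h5.trans h2.2⟩
  have hmod : ∀ b : Cell, 0 ≤ (g b).1 % k ∧ (g b).1 % k < k := fun b =>
    ⟨Int.emod_nonneg _ (by omega), Int.emod_lt_of_pos _ (by omega)⟩
  -- interior cells of the two rows do not both occur
  have hint : ∀ c ∈ P, ∀ d ∈ P, (g c).2 ≠ (g d).2 →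
      (g c).1 % k ≠ 0 → (g c).1 % k ≠ (k : ℤ) - 1 → (g d).1 % k ≠ 0 →
      (g d).1 % k ≠ (k : ℤ) - 1 → ¬ (g c).1 % k ≤ (g d).1 % k := by
    intro c hc d hd hrow hc0 hc1 hd0 hd1 hle
    have hrows : ∀ b ∈ P, (g b).2 = (g c).2 ∨ (g b).2 = (g d).2 := by
      intro b hb
      have h1 := (hblock b hb).2
      have h2 := (hblock c hc).2
      have h3 := (hblock d hd).2
      omega
    -- the cells of `P` below or above `c` and `d` are absent
    have habsc : ∀ b ∈ P, (g b).1 % k = (g c).1 % k → (g b).2 = (g c).2 := by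
      intro b hb h1
      by_contra h2
      apply hfree c hc b hb
      right
      have h3 := (hblock b hb)
      have h4 := (hblock c hc)
      have h5 := Int.emod_add_mul_ediv (g b).1 k
      have h6 := Int.emod_add_mul_ediv (g c).1 k
      rw [h3.1, h1] at h5
      rw [h4.1] at h6
      have h7 : (g b).1 = (g c).1 := by linarith
      simp only [blockPairing]
      unfold sideK inV
      simp only [hc0, hc1, if_false]
      have h8 := h3.2
      have h9 := h4.2
      by_cases h10 : (g c).2 % 2 = 0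
      · rw [if_pos h10]
        exact Prod.ext h7 (by show (g b).2 = (g c).2 + 1; omega)
      · rw [if_neg h10]
        exact Prod.ext h7 (by show (g b).2 = (g c).2 - 1; omega)
    have habsd : ∀ b ∈ P, (g b).1 % k = (g d).1 % k → (g b).2 = (g d).2 := by
      intro b hb h1
      by_contra h2
      apply hfree d hd b hb
      right
      have h3 := (hblock b hb)
      have h4 := (hblock d hd)
      have h5 := Int.emod_add_mul_ediv (g b).1 k
      have h6 := Int.emod_add_mul_ediv (g d).1 k
      rw [h3.1, h1] at h5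
      rw [h4.1] at h6
      have h7 : (g b).1 = (g d).1 := by linarith
      simp only [blockPairing]
      unfold sideK inV
      simp only [hd0, hd1, if_false]
      have h8 := h3.2
      have h9 := h4.2
      by_cases h10 : (g d).2 % 2 = 0
      · rw [if_pos h10]
        exact Prod.ext h7 (by show (g b).2 = (g d).2 + 1; omega)
      · rw [if_neg h10]
        exact Prod.ext h7 (by show (g b).2 = (g d).2 - 1; omega)
    have hlt : (g c).1 % k < (g d).1 % k := by
      rcases lt_or_eq_of_le hle with h | h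
      · exact h
      · exact absurd (habsd c hc h) hrow
    obtain ⟨e, he, f, hf, h1, h2, h3⟩ := exists_cut hPp
      (fun b => ((g b).2 = (g c).2 ∧ (g b).1 % k < (g d).1 % k) ∨
        ((g b).2 ≠ (g c).2 ∧ (g b).1 % k < (g c).1 % k)) hc hd
      (Or.inl ⟨rfl, hlt⟩) (by
        rw [not_or]
        exact ⟨fun h => hrow h.1.symm, fun h => absurd h.2 (by omega)⟩)
    obtain ⟨_, _, h6⟩ := hadj e he f hf h1
    have hmc := hmod c
    have hmd := hmod d
    have hme := hmod e
    have hmf := hmod f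
    have hce := habsc f hf
    have hde := habsd f hf
    have hre := hrows e he
    have hrf := hrows f hf
    rcases h6 with ⟨h7, h8⟩ | ⟨h7, h8⟩ | ⟨h7, h8, h9⟩
    · simp only [not_or, not_and, not_lt] at h3
      obtain ⟨h3a, h3b⟩ := h3
      rcases h2 with ⟨h2a, h2b⟩ | ⟨h2a, h2b⟩
      · have h10 := h3a (h8.trans h2a)
        have h11 := hde (by omega)
        exact hrow (by rw [← h2a, ← h8, h11])
      · have h10 := h3b (by rw [h8]; exact h2a)
        have h11 := hce (by omega)
        exact h2a (by rw [← h8, h11])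
    · simp only [not_or, not_and, not_lt] at h3
      obtain ⟨h3a, h3b⟩ := h3
      rcases h2 with ⟨h2a, h2b⟩ | ⟨h2a, h2b⟩
      · have h10 := h3a (h8.trans h2a)
        omega
      · have h10 := h3b (by rw [h8]; exact h2a)
        omega
    · simp only [not_or, not_and, not_lt] at h3
      obtain ⟨h3a, h3b⟩ := h3
      rw [h7] at h3a h3b
      rcases h2 with ⟨h2a, h2b⟩ | ⟨h2a, h2b⟩
      · have h10 := h3b (by rw [← h2a]; exact h8)
        omega
      · have h10 : (g f).2 = (g c).2 := by
          rcases hrf with h | h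
          · exact h
          · exfalso
            rcases hre with h' | h'
            · exact h2a h'
            · exact h8 (h.trans h'.symm)
        have h11 := h3a h10
        omega
  -- hence all interior cells lie in one row
  obtain ⟨j, hj, hall⟩ : ∃ j : ℤ, (j = 2 * p ∨ j = 2 * p + 1) ∧ ∀ b ∈ P, (g b).2 ≠ j →
      ((g b).1 % k = 0 ∨ (g b).1 % k = (k : ℤ) - 1) := by
    by_cases hex : ∃ c ∈ P, (g c).2 = 2 * p ∧ (g c).1 % k ≠ 0 ∧ (g c).1 % k ≠ (k : ℤ) - 1
    · obtain ⟨c, hc, hc1, hc2, hc3⟩ := hex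
      refine ⟨2 * p, Or.inl rfl, fun b hb hne => ?_⟩
      by_contra hcon
      rw [not_or] at hcon
      rcases le_total ((g c).1 % k) ((g b).1 % k) with h | h
      · exact hint c hc b hb (by rw [hc1]; exact hne.symm) hc2 hc3 hcon.1 hcon.2 h
      · exact hint b hb c hc (by rw [hc1]; exact hne) hcon.1 hcon.2 hc2 hc3 h
    · push Not at hex
      refine ⟨2 * p + 1, Or.inr rfl, fun b hb hne => ?_⟩
      have h1 := (hblock b hb).2
      have h2 : (g b).2 = 2 * p := by omega
      by_cases h3 : (g b).1 % k = 0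
      · exact Or.inl h3
      · exact Or.inr (hex b hb h2 h3)
  have hcoord : ∀ b ∈ P, (g b).1 - k * q = (g b).1 % k := by
    intro b hb
    have h1 := Int.emod_add_mul_ediv (g b).1 k
    rw [(hblock b hb).1] at h1
    linarith
  have hmemU : ∀ b ∈ P, ∀ y : ℤ, ((g b).2 = j → y = 0) → ((g b).2 ≠ j → y = 1) →
      (((g b).1 - k * q, y) : Cell) ∈ U k := by
    intro b hb y h0 h1
    rw [hcoord b hb]
    unfold U
    rw [Finset.mem_union, Finset.mem_image]
    have hm := hmod b
    by_cases hbj : (g b).2 = j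
    · left
      refine ⟨((g b).1 % k).toNat, ?_, ?_⟩
      · rw [Finset.mem_range]
        omega
      · rw [h0 hbj, Prod.mk.injEq]
        exact ⟨by rw [Int.toNat_of_nonneg hm.1], rfl⟩
    · right
      rw [h1 hbj, Finset.mem_insert, Finset.mem_singleton, Prod.mk.injEq, Prod.mk.injEq]
      rcases hall b hb hbj with h | h
      · exact Or.inl ⟨h, rfl⟩
      · exact Or.inr ⟨h, rfl⟩
  rcases hj with rfl | rfl
  · refine ⟨g.trans (shiftEquiv (-(k * q)) (-(2 * p))), hg.trans (shiftEquiv_cong _ _),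
      fun b hb => ?_⟩
    have h2 := (hblock b hb).2
    have := hmemU b hb ((g b).2 - 2 * p) (fun h => by omega) (fun h => by omega)
    simpa [shiftEquiv, sub_eq_add_neg] using this
  · let r : Cell ≃ Cell :=
      { toFun := fun c => (c.1, -c.2), invFun := fun c => (c.1, -c.2),
        left_inv := fun c => by simp, right_inv := fun c => by simp }
    have hr : IsCongruence r := by
      intro c d
      simp only [r, sqd, Equiv.coe_fn_mk]
      ring
    refine ⟨(g.trans r).trans (shiftEquiv (-(k * q)) (2 * p + 1)),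
      (hg.trans hr).trans (shiftEquiv_cong _ _), fun b hb => ?_⟩
    have h2 := (hblock b hb).2
    have := hmemU b hb (-(g b).2 + (2 * p + 1)) (fun h => by omega) (fun h => by omega)
    simpa [shiftEquiv, r, sub_eq_add_neg] using this

end Pool.Agent.R184.Poly
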