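import Mathlib

set_option autoImplicit false

namespace Pool.Agent.R184.Poly

/-- The cell `[0,1]² + v` is represented by `v ∈ ℤ²`. -/
abbrev Cell : Type := ℤ × ℤ

/-- Squared distance of two cells. -/
def sqd (c d : Cell) : ℤ := (c.1 - d.1) ^ 2 + (c.2 - d.2) ^ 2

/-- Two cells share an edge. -/
def Adj (c d : Cell) : Prop := sqd c d = 1

/-- A finite polyomino: a nonempty finite set of cells, connected through adjacent cells. -/
def IsPolyomino (P : Finset Cell) : Prop :=
  P.Nonempty ∧ ∀ a ∈ P, ∀ b ∈ P, Relation.ReflTransGen (fun x y => Adj x y ∧ y ∈ P) a b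

/-- Congruences of the board: the bijections preserving distances (translations, rotations,
reflections and their compositions). -/
def IsCongruence (g : Cell ≃ Cell) : Prop := ∀ c d, sqd (g c) (g d) = sqd c d

/-- `P` is an ancestor of `Q`: `Q` contains a congruent copy of `P`. -/
def Ancestor (P Q : Finset Cell) : Prop :=
  ∃ g : Cell ≃ Cell, IsCongruence g ∧ ∀ c ∈ P, g c ∈ Q

/-- A team of finite polyominoes, given by one representative of each congruence class: no element
is an ancestor of a different one. -/
def IsTeam (F : Set (Finset Cell)) : Prop :=
  (∀ P ∈ F, IsPolyomino P) ∧ ∀ P ∈ F, ∀ Q ∈ F, Ancestor P Q → P = Q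

/-- The replies of the breaker so far, most recent first; each reply is a pair of cells. -/
abbrev Replies : Type := List (Cell × Cell)

/-- The cells marked by the maker, playing by the strategy `σ` (his next cell as a function of the
replies so far), before his next move. -/
def makerCells (σ : Replies → Cell) : Replies → List Cell
  | [] => []
  | _ :: h => σ h :: makerCells σ h

/-- The cells marked by the breaker. -/
def breakerCells : Replies → List Cell
  | [] => []
  | r :: h => r.1 :: r.2 :: breakerCells h

/-- All replies of the breaker consist of two different cells not marked before. -/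
def LegalReplies (σ : Replies → Cell) : Replies → Prop
  | [] => True
  | r :: h => LegalReplies σ h ∧ r.1 ≠ r.2 ∧
      (r.1 ∉ makerCells σ h ∧ r.1 ∉ breakerCells h ∧ r.1 ≠ σ h) ∧
      (r.2 ∉ makerCells σ h ∧ r.2 ∉ breakerCells h ∧ r.2 ≠ σ h)

/-- The maker's strategy always marks a cell not marked before. -/
def LegalStrategy (σ : Replies → Cell) : Prop :=
  ∀ h, LegalReplies σ h → σ h ∉ makerCells σ h ∧ σ h ∉ breakerCells h

/-- The first `t` replies of an infinite play of the breaker, most recent first. -/
def history (b : ℕ → Cell × Cell) : ℕ → Replies
  | 0 => []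
  | t + 1 => b t :: history b t

/-- `F` is a winner of the weak `(1,2)`-achievement game: the maker has a strategy such that,
however the breaker plays, at some finite stage the maker's cells contain a polyomino congruent to
an element of `F`. -/
def Winner (F : Set (Finset Cell)) : Prop :=
  ∃ σ : Replies → Cell, LegalStrategy σ ∧
    ∀ b : ℕ → Cell × Cell, (∀ t, LegalReplies σ (history b t)) →
      ∃ t, ∃ P ∈ F, ∃ g : Cell ≃ Cell, IsCongruence g ∧
        ∀ c ∈ P, g c ∈ makerCells σ (history b t)

end Pool.Agent.R184.Poly
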