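import Pool.Agent.R184.PolyGeo

set_option autoImplicit false

namespace Pool.Agent.R184.Poly

/-- Unit vectors along the axes. -/
def Unit4 (v : Cell) : Prop := v = (1, 0) ∨ v = (-1, 0) ∨ v = (0, 1) ∨ v = (0, -1)

theorem Adj.unit4 {c d : Cell} (h : Adj c d) : Unit4 (d - c) := by
  unfold Unit4
  rcases adj_cases h with rfl | rfl | rfl | rfl
  · left; ext <;> simp
  · right; left; ext <;> simp
  · right; right; left; ext <;> simp
  · right; right; right; ext <;> simp

theorem Unit4.sq {v : Cell} (h : Unit4 v) : v.1 ^ 2 + v.2 ^ 2 = 1 := by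
  rcases h with rfl | rfl | rfl | rfl <;> norm_num

theorem adj_of_unit4 {c d : Cell} (h : Unit4 (d - c)) : Adj c d := by
  have := h.sq
  unfold Adj sqd
  simp only [Prod.fst_sub, Prod.snd_sub] at this
  linarith [this, sq_nonneg (c.1 - d.1)]

theorem unit_two {v w x : Cell} (hv : Unit4 v) (hw : Unit4 w) (hx : Unit4 x) (h1 : w ≠ v)
    (h2 : w ≠ -v) (h3 : x ≠ v) (h4 : x ≠ -v) : x = w ∨ x = -w := by
  rcases hv with rfl | rfl | rfl | rfl <;> rcases hw with rfl | rfl | rfl | rfl <;>
    rcases hx with rfl | rfl | rfl | rfl <;> simp_all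

theorem unit_frame {v e : Cell} (hv : Unit4 v) (he : Unit4 e) (h1 : e ≠ v) (h2 : e ≠ -v) :
    ∃ s : ℤ, s * s = 1 ∧ v.1 = s * e.2 ∧ v.2 = -(s * e.1) := by
  refine ⟨v.1 * e.2 - v.2 * e.1, ?_⟩
  rcases hv with rfl | rfl | rfl | rfl <;> rcases he with rfl | rfl | rfl | rfl <;> simp_all

theorem step_cases {v : Cell} (hv : Unit4 v) {s t : ℤ} (hs : s = 1 ∨ s = -1)
    (ht : t = 1 ∨ t = -1) (h3 : v ≠ (-s, 0)) (h4 : v ≠ (0, -t)) : v = (s, 0) ∨ v = (0, t) := by
  rcases hv with rfl | rfl | rfl | rfl <;> rcases hs with rfl | rfl <;>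
    rcases ht with rfl | rfl <;> simp_all

/-- `P` contains a congruent copy of a monotone path with `m` steps. -/
def HasMono (P : Finset Cell) (m : ℕ) : Prop :=
  ∃ g : Cell ≃ Cell, IsCongruence g ∧ ∃ u : ℕ → Cell,
    (∀ i < m, u (i + 1) = ((u i).1 + 1, (u i).2) ∨ u (i + 1) = ((u i).1, (u i).2 + 1)) ∧
    ∀ i ≤ m, g (u i) ∈ P

/-- The reflection with signs `s`, `t`. -/
def reflEquiv (s t : ℤ) (hs : s * s = 1) (ht : t * t = 1) : Cell ≃ Cell where
  toFun c := (s * c.1, t * c.2)
  invFun c := (s * c.1, t * c.2)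
  left_inv c := by
    ext
    · simp only; linear_combination c.1 * hs
    · simp only; linear_combination c.2 * ht
  right_inv c := by
    ext
    · simp only; linear_combination c.1 * hs
    · simp only; linear_combination c.2 * ht

theorem reflEquiv_cong (s t : ℤ) (hs : s * s = 1) (ht : t * t = 1) :
    IsCongruence (reflEquiv s t hs ht) := by
  intro c d
  simp only [reflEquiv, sqd, Equiv.coe_fn_mk]
  linear_combination (c.1 - d.1) ^ 2 * hs + (c.2 - d.2) ^ 2 * ht

theorem dichotomy {P : Finset Cell} {q : ℕ → Cell} {m : ℕ} (hq : ∀ i ≤ m, q i ∈ P)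
    (hadj : ∀ i < m, Adj (q i) (q (i + 1)))
    (hnon : ∀ i j, i ≤ m → j ≤ m → i + 2 ≤ j → ¬ Adj (q i) (q j))
    (hinj : ∀ i j, i ≤ m → j ≤ m → q i = q j → i = j) :
    (∃ k ≥ 3, Ancestor (U k) P) ∨ HasMono P m := by
  classical
  set d : ℕ → Cell := fun i => q (i + 1) - q i with hd
  have hunit : ∀ i < m, Unit4 (d i) := fun i hi => (hadj i hi).unit4
  have hqs : ∀ i, q (i + 1) = q i + d i := fun i => by simp [hd]
  by_cases hopp : ∃ l, 1 ≤ l ∧ ∃ i, i + l < m ∧ d (i + l) = -d i
  · left
    obtain ⟨l, ⟨hl1, i, hil, hdi⟩, hmin⟩ : ∃ l, (1 ≤ l ∧ ∃ i, i + l < m ∧ d (i + l) = -d i) ∧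
        ∀ l' < l, ¬ (1 ≤ l' ∧ ∃ i, i + l' < m ∧ d (i + l') = -d i) :=
      ⟨Nat.find hopp, Nat.find_spec hopp, fun l' hl' => Nat.find_min hopp hl'⟩
    have hl2 : 2 ≤ l := by
      by_contra hcon
      have : l = 1 := by omega
      subst this
      have h1 := hqs (i + 1)
      rw [hdi, hqs i] at h1
      have h2 : q (i + 1 + 1) = q i := by rw [h1]; abel
      have := hinj _ _ (by omega) (by omega) h2
      omega
    have hbt : ∀ t, i < t → t < i + l → d t ≠ d i ∧ d t ≠ -d i := by
      intro t h1 h2
      constructor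
      · intro h3
        refine hmin (i + l - t) (by omega) ⟨by omega, t, by omega, ?_⟩
        rw [show t + (i + l - t) = i + l by omega, hdi, h3]
      · intro h3
        refine hmin (t - i) (by omega) ⟨by omega, i, by omega, ?_⟩
        rw [show i + (t - i) = t by omega, h3]
    have hcons : ∀ t, t + 1 < m → d (t + 1) ≠ -d t := by
      intro t h1 h2
      exact hmin 1 (by omega) ⟨le_rfl, t, h1, h2⟩
    set e := d (i + 1) with he
    have heU : Unit4 e := hunit _ (by omega)
    have hdU : Unit4 (d i) := hunit _ (by omega)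
    have hei := hbt (i + 1) (by omega) (by omega)
    have hconst : ∀ s, s + 1 < l → d (i + 1 + s) = e := by
      intro s
      induction s with
      | zero => intro _; rfl
      | succ s ih =>
        intro hs
        have h1 := ih (by omega)
        have h2 := hbt (i + 1 + (s + 1)) (by omega) (by omega)
        rcases unit_two hdU heU (hunit (i + 1 + (s + 1)) (by omega)) hei.1 hei.2 h2.1 h2.2 with
          h3 | h3
        · exact h3
        · exfalso
          refine hcons (i + 1 + s) (by omega) ?_
          rw [h1]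
          exact h3
    have hpos : ∀ s, s < l → q (i + 1 + s) = q (i + 1) + (s : ℤ) • e := by
      intro s
      induction s with
      | zero => intro _; simp
      | succ s ih =>
        intro hs
        have h1 := hqs (i + 1 + s)
        rw [ih (by omega), hconst s (by omega)] at h1
        rw [show i + 1 + (s + 1) = i + 1 + s + 1 by ring, h1]
        push_cast
        rw [add_smul, one_smul, add_assoc]
    have hq0 : q i = q (i + 1) - d i := by rw [hqs i]; abel
    have hqend : q (i + l + 1) = q (i + 1) + ((l : ℤ) - 1) • e - d i := by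
      have h1 := hqs (i + l)
      have h2 := hpos (l - 1) (by omega)
      rw [show i + 1 + (l - 1) = i + l by omega] at h2
      rw [h1, h2, hdi]
      have h3 : ((l - 1 : ℕ) : ℤ) = (l : ℤ) - 1 := by
        rw [Nat.cast_sub (by omega)]; simp
      rw [h3]
      abel
    have hl3 : 3 ≤ l := by
      by_contra hcon
      have : l = 2 := by omega
      subst this
      refine hnon i (i + 2 + 1) (by omega) (by omega) (by omega) (adj_of_unit4 ?_)
      rw [hqend, hq0]
      have : q (i + 1) + (((2 : ℕ) : ℤ) - 1) • e - d i - (q (i + 1) - d i) = e := by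
        norm_num
      rw [this]
      exact heU
    obtain ⟨s, hs, hs1, hs2⟩ := unit_frame hdU heU hei.1 hei.2
    refine ⟨l, hl3, frame (q (i + 1)) e s heU.sq hs, frame_cong _ _ _ _ _, fun c hc => ?_⟩
    unfold U at hc
    rw [Finset.mem_union, Finset.mem_image, Finset.mem_insert, Finset.mem_singleton] at hc
    rcases hc with ⟨j, hj, rfl⟩ | rfl | rfl
    · rw [Finset.mem_range] at hj
      have h1 := hpos j hj
      have h2 : frame (q (i + 1)) e s heU.sq hs ((j : ℤ), 0) = q (i + 1 + j) := by
        rw [h1]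
        ext
        · simp [frame]
        · simp [frame]
      rw [h2]
      exact hq _ (by omega)
    · have h2 : frame (q (i + 1)) e s heU.sq hs (0, 1) = q i := by
        rw [hq0]
        ext
        · simp only [frame, Equiv.coe_fn_mk, Prod.fst_sub, hs1]; ring
        · simp only [frame, Equiv.coe_fn_mk, Prod.snd_sub, hs2]; ring
      rw [h2]
      exact hq _ (by omega)
    · have h2 : frame (q (i + 1)) e s heU.sq hs ((l : ℤ) - 1, 1) = q (i + l + 1) := by
        rw [hqend]
        ext
        · simp only [frame, Equiv.coe_fn_mk, Prod.fst_sub, Prod.fst_add, Prod.smul_fst,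
            smul_eq_mul, hs1]; ring
        · simp only [frame, Equiv.coe_fn_mk, Prod.snd_sub, Prod.snd_add, Prod.smul_snd,
            smul_eq_mul, hs2]; ring
      rw [h2]
      exact hq _ (by omega)
  · right
    push Not at hopp
    have hno : ∀ i j, i < m → j < m → d j ≠ -d i := by
      intro i j hi hj h
      rcases lt_trichotomy i j with h1 | rfl | h1
      · refine hopp (j - i) (by omega) i (by omega) ?_
        rw [show i + (j - i) = j by omega, h]
      · rcases hunit i hi with h2 | h2 | h2 | h2 <;> rw [h2] at h <;> simp at h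
      · refine hopp (i - j) (by omega) j (by omega) ?_
        rw [show j + (i - j) = i by omega, h, neg_neg]
    obtain ⟨s, hs, hs'⟩ : ∃ s : ℤ, s * s = 1 ∧ ∀ i < m, d i ≠ (-s, 0) := by
      by_cases h : ∃ i < m, d i = (-1, 0)
      · obtain ⟨i, hi, h⟩ := h
        refine ⟨-1, by norm_num, fun j hj hj' => hno i j hi hj ?_⟩
        rw [hj', h]
        ext <;> simp
      · push Not at h
        exact ⟨1, by norm_num, h⟩
    obtain ⟨t, ht, ht'⟩ : ∃ t : ℤ, t * t = 1 ∧ ∀ i < m, d i ≠ (0, -t) := by
      by_cases h : ∃ i < m, d i = (0, -1)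
      · obtain ⟨i, hi, h⟩ := h
        refine ⟨-1, by norm_num, fun j hj hj' => hno i j hi hj ?_⟩
        rw [hj', h]
        ext <;> simp
      · push Not at h
        exact ⟨1, by norm_num, h⟩
    have hstep : ∀ i < m, d i = (s, 0) ∨ d i = (0, t) := by
      intro i hi
      have h1 : s = 1 ∨ s = -1 := by
        rcases Int.mul_eq_one_iff_eq_one_or_neg_one.mp hs with h | h
        · exact Or.inl h.1
        · exact Or.inr h.1
      have h2 : t = 1 ∨ t = -1 := by
        rcases Int.mul_eq_one_iff_eq_one_or_neg_one.mp ht with h | h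
        · exact Or.inl h.1
        · exact Or.inr h.1
      exact step_cases (hunit i hi) h1 h2 (hs' i hi) (ht' i hi)
    refine ⟨reflEquiv s t hs ht, reflEquiv_cong _ _ _ _, fun i => reflEquiv s t hs ht (q i),
      fun i hi => ?_, fun i hi => ?_⟩
    · beta_reduce
      rw [hqs i]
      rcases hstep i hi with h | h
      · left
        rw [h]
        ext
        · simp only [reflEquiv, Equiv.coe_fn_mk, Prod.fst_add]
          linear_combination hs
        · simp [reflEquiv]
      · right
        rw [h]
        ext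
        · simp [reflEquiv]
        · simp only [reflEquiv, Equiv.coe_fn_mk, Prod.snd_add]
          linear_combination ht
    · beta_reduce
      have h1 : reflEquiv s t hs ht (reflEquiv s t hs ht (q i)) = q i :=
        (reflEquiv s t hs ht).left_inv (q i)
      rw [h1]
      exact hq i hi

end Pool.Agent.R184.Poly
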