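import Pool.Agent.R184.PolyDich

set_option autoImplicit false

namespace Pool.Agent.R184.Poly

open Filter

theorem card_of_geodesic {P : Finset Cell} {q : ℕ → Cell} {m : ℕ} (hq : ∀ i ≤ m, q i ∈ P)
    (hinj : ∀ i j, i ≤ m → j ≤ m → q i = q j → i = j) : m + 1 ≤ P.card := by
  have h := Finset.card_le_card_of_injOn (s := Finset.range (m + 1)) (t := P) q
    (fun i hi => hq i (by simpa [Nat.lt_succ_iff] using hi))
    (fun i hi j hj h => hinj i j (by simpa [Nat.lt_succ_iff] using hi)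
      (by simpa [Nat.lt_succ_iff] using hj) h)
  simpa using h

theorem X_true (i : ℤ) : X (fun _ => true) i = i := by
  induction i using Int.induction_on with
  | zero => simp [X]
  | succ i ih => rw [X_succ, ih]; simp
  | pred i ih =>
    have := X_pred (fun _ => true) (-(i : ℤ))
    rw [ih] at this
    simp only [if_true] at this
    linarith

theorem card_U_le (k : ℕ) : (U k).card ≤ k + 2 := by
  unfold U
  refine (Finset.card_union_le _ _).trans ?_
  have h1 : ((Finset.range k).image (fun i : ℕ => (((i : ℤ), (0 : ℤ)) : Cell))).card ≤ k := by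
    refine Finset.card_image_le.trans ?_
    simp
  have h2 : ({((0 : ℤ), (1 : ℤ)), ((k : ℤ) - 1, (1 : ℤ))} : Finset Cell).card ≤ 2 :=
    Finset.card_le_two
  omega

theorem strip_U {N k : ℕ} (h : 2 * N + 1 ≤ k) :
    Ancestor (snake (fun _ => true) (-N) N) (U k) := by
  refine ⟨shiftEquiv N 0, shiftEquiv_cong _ _, fun c hc => ?_⟩
  unfold snake at hc
  rw [Finset.mem_image] at hc
  obtain ⟨i, hi, rfl⟩ := hc
  rw [Finset.mem_Icc] at hi
  rw [X_true]
  unfold U
  rw [Finset.mem_union, Finset.mem_image]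
  left
  refine ⟨(i + N).toNat, ?_, ?_⟩
  · rw [Finset.mem_range]; omega
  · simp only [shiftEquiv, Equiv.coe_fn_mk, Prod.mk.injEq]
    constructor
    · rw [Int.toNat_of_nonneg (by omega)]
    · ring

/-- Long monotone paths. -/
theorem exists_mono {F : Set (Finset Cell)} (hF : Winner F) (hteam : IsTeam F)
    (hinf : F.Infinite) :
    ∃ m₀ : ℕ, ∀ m ≥ m₀, ∃ P ∈ F, m + 1 ≤ P.card ∧ HasMono P m := by
  obtain ⟨Q₀, hQ₀, N, hN⟩ := winner_mono hF hteam.1 (fun _ => true)
  refine ⟨2 * N + 2 + Q₀.card, fun m hm => ?_⟩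
  obtain ⟨P, hP, a, ha, b, hb, hdist⟩ := exists_far hteam hinf m
  obtain ⟨q, hq1, hq2, hq3, hq4⟩ := exists_geodesic (hteam.1 P hP) ha hb hdist
  have hcard := card_of_geodesic hq1 hq4
  refine ⟨P, hP, hcard, ?_⟩
  rcases dichotomy hq1 hq2 hq3 hq4 with ⟨k, hk, hU⟩ | h
  · exfalso
    obtain ⟨Q, hQ, hQU⟩ := winner_U hF hteam.1 k hk
    have h1 := hteam.2 Q hQ P hP (hQU.trans hU)
    rw [h1] at hQU
    have h2 := hQU.card_le.trans (card_U_le k)
    have h3 : 2 * N + 1 ≤ k := by omega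
    have h4 := hteam.2 Q₀ hQ₀ P hP ((hN.trans (strip_U h3)).trans hU)
    rw [← h4] at hcard
    omega
  · exact h

/-- No infinite team of finite polyominoes is a winner. -/
theorem no_infinite_winner {F : Set (Finset Cell)} (hteam : IsTeam F) (hF : Winner F) :
    F.Finite := by
  by_contra hinf
  obtain ⟨m₀, hm₀⟩ := exists_mono hF hteam hinf
  have hex : ∀ m : ℕ, ∃ (P : Finset Cell) (g : Cell ≃ Cell) (u : ℕ → Cell), m₀ ≤ m →
      P ∈ F ∧ m + 1 ≤ P.card ∧ IsCongruence g ∧
      (∀ i < m, u (i + 1) = ((u i).1 + 1, (u i).2) ∨ u (i + 1) = ((u i).1, (u i).2 + 1)) ∧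
      ∀ i ≤ m, g (u i) ∈ P := by
    intro m
    by_cases hm : m₀ ≤ m
    · obtain ⟨P, hP, hc, g, hg, u, h1, h2⟩ := hm₀ m hm
      exact ⟨P, g, u, fun _ => ⟨hP, hc, hg, h1, h2⟩⟩
    · exact ⟨∅, Equiv.refl _, fun _ => (0, 0), fun h => absurd h hm⟩
  choose P g u hall using hex
  -- centred index
  let idx : ℕ → ℤ → ℕ := fun m i => ((m / 2 : ℕ) + i).toNat
  classical
  let w : ℤ → Bool := fun i => decide
    (∀ᶠ m in (hyperfilter ℕ : Filter ℕ), u m (idx m i + 1) = ((u m (idx m i)).1 + 1,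
      (u m (idx m i)).2))
  have hle : ((hyperfilter ℕ : Ultrafilter ℕ) : Filter ℕ) ≤ atTop := Nat.hyperfilter_le_atTop
  have hstep : ∀ i : ℤ, ∀ᶠ m in (hyperfilter ℕ : Filter ℕ),
      u m (idx m i + 1) = ((u m (idx m i)).1 + (if w i then 1 else 0),
        (u m (idx m i)).2 + (if w i then 0 else 1)) := by
    intro i
    have hbig : ∀ᶠ m in (hyperfilter ℕ : Filter ℕ), m₀ ≤ m ∧ 2 * i.natAbs + 4 ≤ m :=
      hle ((eventually_ge_atTop m₀).and (eventually_ge_atTop _))
    by_cases hw : ∀ᶠ m in (hyperfilter ℕ : Filter ℕ),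
        u m (idx m i + 1) = ((u m (idx m i)).1 + 1, (u m (idx m i)).2)
    · have hwi : w i = true := by simpa [w] using hw
      filter_upwards [hw] with m hm
      rw [hm, hwi]
      simp
    · have hwi : w i = false := by simpa [w] using hw
      have hw' := Ultrafilter.eventually_not.mpr hw
      filter_upwards [hw', hbig] with m hm hm2
      have h1 : idx m i < m := by
        show ((m / 2 : ℕ) + i : ℤ).toNat < m
        omega
      rcases (hall m hm2.1).2.2.2.1 (idx m i) h1 with h2 | h2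
      · exact absurd h2 hm
      · rw [h2, hwi]
        simp
  obtain ⟨Q, hQ, N, hQN⟩ := winner_mono hF hteam.1 w
  have hfin : ∀ᶠ m in (hyperfilter ℕ : Filter ℕ), ∀ i ∈ Finset.Ico (-(N : ℤ)) N,
      u m (idx m i + 1) = ((u m (idx m i)).1 + (if w i then 1 else 0),
        (u m (idx m i)).2 + (if w i then 0 else 1)) := by
    rw [Finset.eventually_all]
    exact fun i _ => hstep i
  have hbig : ∀ᶠ m in (hyperfilter ℕ : Filter ℕ), m₀ ≤ m ∧ 2 * N + 4 ≤ m ∧ Q.card ≤ m :=
    hle ((eventually_ge_atTop m₀).and ((eventually_ge_atTop _).and (eventually_ge_atTop _)))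
  obtain ⟨m, hm1, hm2, hm3, hm4⟩ := (hfin.and hbig).exists
  obtain ⟨hPF, hcard, hg, hsteps, hmem⟩ := hall m hm2
  -- the window is contained in `P m`
  have hidx : ∀ i : ℤ, -(N : ℤ) ≤ i → i ≤ N → idx m i ≤ m ∧ idx m (i + 1) = idx m i + 1 := by
    intro i h1 h2
    constructor
    · show ((m / 2 : ℕ) + i : ℤ).toNat ≤ m
      omega
    · show ((m / 2 : ℕ) + (i + 1) : ℤ).toNat = ((m / 2 : ℕ) + i : ℤ).toNat + 1
      omega
  have hpos : ∀ j : ℕ, (j : ℤ) ≤ 2 * N →
      u m (idx m (-(N : ℤ) + j)) =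
        ((u m (idx m (-(N : ℤ)))).1 + (X w (-(N : ℤ) + j) - X w (-(N : ℤ))),
         (u m (idx m (-(N : ℤ)))).2 + (j - (X w (-(N : ℤ) + j) - X w (-(N : ℤ))))) := by
    intro j
    induction j with
    | zero => intro _; ext <;> simp
    | succ j ih =>
      intro hj
      push_cast at hj
      have h1 := ih (by omega)
      have h2 := hm1 (-(N : ℤ) + j) (by rw [Finset.mem_Ico]; omega)
      have h3 := (hidx (-(N : ℤ) + j) (by omega) (by omega)).2
      have h4 : -(N : ℤ) + ((j + 1 : ℕ) : ℤ) = -(N : ℤ) + j + 1 := by push_cast; ring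
      rw [h4, h3, h2, h1, X_succ]
      ext
      · simp only; ring
      · simp only
        by_cases hw : w (-(N : ℤ) + j) = true
        · simp only [hw, if_true]; push_cast; ring
        · simp only [hw]; push_cast; simp; ring
  have hanc : Ancestor (snake w (-N) N) (P m) := by
    refine ⟨(shiftEquiv ((u m (idx m (-(N : ℤ)))).1 - X w (-(N : ℤ)))
      ((u m (idx m (-(N : ℤ)))).2 - (-(N : ℤ) - X w (-(N : ℤ))))).trans (g m),
      (shiftEquiv_cong _ _).trans hg, fun c hc => ?_⟩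
    unfold snake at hc
    rw [Finset.mem_image] at hc
    obtain ⟨i, hi, rfl⟩ := hc
    rw [Finset.mem_Icc] at hi
    obtain ⟨j, hj⟩ := Int.eq_ofNat_of_zero_le (show 0 ≤ i + N by omega)
    have hij : i = -(N : ℤ) + j := by omega
    have h1 := hpos j (by omega)
    have h2 : shiftEquiv ((u m (idx m (-(N : ℤ)))).1 - X w (-(N : ℤ)))
        ((u m (idx m (-(N : ℤ)))).2 - (-(N : ℤ) - X w (-(N : ℤ)))) (X w i, i - X w i) =
        u m (idx m i) := by
      rw [hij, h1]
      simp only [shiftEquiv, Equiv.coe_fn_mk]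
      ext
      · simp only; ring
      · simp only; ring
    rw [Equiv.trans_apply, h2]
    exact hmem _ (hidx i hi.1 hi.2).1
  have h5 := hteam.2 Q hQ (P m) hPF (hQN.trans hanc)
  rw [← h5] at hcard
  omega

end Pool.Agent.R184.Poly
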