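import Pool.Agent.R184.PolyBlock

set_option autoImplicit false

namespace Pool.Agent.R184.Poly

/-- The adjacency graph of `P`. -/
def gr (P : Finset Cell) : SimpleGraph Cell where
  Adj x y := Adj x y ∧ x ∈ P ∧ y ∈ P
  symm := ⟨fun x y h => ⟨by
    have := h.1
    unfold Adj sqd at *
    rw [← this]; ring, h.2.2, h.2.1⟩⟩
  loopless := ⟨fun x h => by
    have := h.1
    unfold Adj sqd at this
    simp at this⟩

theorem Adj.symm {c d : Cell} (h : Adj c d) : Adj d c := by
  unfold Adj sqd at *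
  rw [← h]; ring

theorem reachable {P : Finset Cell} (hP : IsPolyomino P) {a b : Cell} (ha : a ∈ P) (hb : b ∈ P) :
    (gr P).Reachable a b := by
  have h := hP.2 a ha b hb
  have : b ∈ P ∧ (gr P).Reachable a b := by
    clear hb
    induction h with
    | refl => exact ⟨ha, SimpleGraph.Reachable.refl _⟩
    | tail _ hxy ih =>
      refine ⟨hxy.2, ih.2.trans ?_⟩
      exact SimpleGraph.Adj.reachable ⟨hxy.1, ih.1, hxy.2⟩
  exact this.2

theorem walk_coord {P : Finset Cell} {a b : Cell} (p : (gr P).Walk a b) :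
    |b.1 - a.1| ≤ p.length ∧ |b.2 - a.2| ≤ p.length := by
  induction p with
  | nil => simp
  | cons h p ih =>
    rw [SimpleGraph.Walk.length_cons]
    obtain ⟨h1, h2⟩ := ih
    rw [abs_le] at *
    rw [abs_le]
    push_cast
    rcases adj_cases h.1 with h3 | h3 | h3 | h3 <;>
      (have e1 := congrArg Prod.fst h3
       have e2 := congrArg Prod.snd h3
       simp only at e1 e2
       refine ⟨⟨?_, ?_⟩, ⟨?_, ?_⟩⟩ <;> linarith [h1.1, h1.2, h2.1, h2.2])

/-- An infinite team has elements of arbitrarily large diameter. -/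
theorem exists_far {F : Set (Finset Cell)} (hteam : IsTeam F) (hinf : F.Infinite) (m : ℕ) :
    ∃ P ∈ F, ∃ a ∈ P, ∃ b ∈ P, m ≤ (gr P).dist a b := by
  classical
  by_contra hcon
  push Not at hcon
  apply hinf
  have hbase : ∀ P : Finset Cell, ∃ a : Cell, P ∈ F → a ∈ P := by
    intro P
    by_cases h : P ∈ F
    · obtain ⟨a, ha⟩ := (hteam.1 P h).1
      exact ⟨a, fun _ => ha⟩
    · exact ⟨(0, 0), fun h' => absurd h' h⟩
  choose a ha using hbase
  let φ : Finset Cell → Finset Cell := fun P => P.image (shiftEquiv (-(a P).1) (-(a P).2))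
  let B : Finset Cell := (Finset.Icc (-(m : ℤ)) m) ×ˢ (Finset.Icc (-(m : ℤ)) m)
  refine Set.Finite.of_finite_image (f := φ) ?_ ?_
  · refine Set.Finite.subset (B.powerset.finite_toSet) ?_
    rintro _ ⟨P, hP, rfl⟩
    rw [Finset.mem_coe, Finset.mem_powerset]
    intro c hc
    rw [Finset.mem_image] at hc
    obtain ⟨b, hb, rfl⟩ := hc
    obtain ⟨p, hp⟩ := (reachable (hteam.1 P hP) (ha P hP) hb).exists_walk_length_eq_dist
    have h1 := walk_coord p
    have h2 := hcon P hP (a P) (ha P hP) b hb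
    rw [hp] at h1
    rw [abs_le, abs_le] at h1
    have h3 : (((gr P).dist (a P) b : ℕ) : ℤ) < m := by exact_mod_cast h2
    simp only [shiftEquiv, Equiv.coe_fn_mk, B, Finset.mem_product, Finset.mem_Icc]
    refine ⟨⟨?_, ?_⟩, ⟨?_, ?_⟩⟩ <;> linarith [h1.1.1, h1.1.2, h1.2.1, h1.2.2]
  · intro P hP Q hQ hPQ
    refine hteam.2 P hP Q hQ ⟨(shiftEquiv (-(a P).1) (-(a P).2)).trans
      (shiftEquiv (-(a Q).1) (-(a Q).2)).symm,
      (shiftEquiv_cong _ _).trans (shiftEquiv_cong _ _).symm, fun c hc => ?_⟩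
    have h1 : shiftEquiv (-(a P).1) (-(a P).2) c ∈ φ Q := by
      rw [← hPQ]
      exact Finset.mem_image_of_mem _ hc
    rw [Finset.mem_image] at h1
    obtain ⟨d, hd, h1⟩ := h1
    rw [Equiv.trans_apply, ← h1, Equiv.symm_apply_apply]
    exact hd

/-- A geodesic in `P`. -/
theorem exists_geodesic {P : Finset Cell} (hP : IsPolyomino P) {a b : Cell} (ha : a ∈ P)
    (hb : b ∈ P) {m : ℕ} (hm : m ≤ (gr P).dist a b) :
    ∃ q : ℕ → Cell, (∀ i ≤ m, q i ∈ P) ∧ (∀ i < m, Adj (q i) (q (i + 1))) ∧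
      (∀ i j, i ≤ m → j ≤ m → i + 2 ≤ j → ¬ Adj (q i) (q j)) ∧
      (∀ i j, i ≤ m → j ≤ m → q i = q j → i = j) := by
  obtain ⟨p, hp⟩ := (reachable hP ha hb).exists_walk_length_eq_dist
  have hdist : ∀ i ≤ p.length, (gr P).dist a (p.getVert i) = i := by
    intro i hi
    have h1 : (gr P).dist a (p.getVert i) ≤ i := by
      have := SimpleGraph.dist_le (p.take i)
      rw [SimpleGraph.Walk.take_length] at this
      omega
    have h2 : (gr P).dist (p.getVert i) b ≤ p.length - i := by
      have := SimpleGraph.dist_le (p.drop i)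
      rw [SimpleGraph.Walk.drop_length] at this
      exact this
    have h3 : (gr P).dist a b ≤ (gr P).dist a (p.getVert i) + (gr P).dist (p.getVert i) b := by
      obtain ⟨p1, hp1⟩ := (p.take i).reachable.exists_walk_length_eq_dist
      obtain ⟨p2, hp2⟩ := (p.drop i).reachable.exists_walk_length_eq_dist
      have := SimpleGraph.dist_le (p1.append p2)
      rw [SimpleGraph.Walk.length_append, hp1, hp2] at this
      exact this
    omega
  have hadj : ∀ i < p.length, (gr P).Adj (p.getVert i) (p.getVert (i + 1)) :=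
    fun i hi => p.adj_getVert_succ hi
  have hmem : ∀ i ≤ p.length, p.getVert i ∈ P := by
    intro i hi
    rcases Nat.eq_zero_or_pos i with rfl | h0
    · simpa using ha
    · have := hadj (i - 1) (by omega)
      rw [show i - 1 + 1 = i by omega] at this
      exact this.2.2
  refine ⟨fun i => p.getVert i, fun i hi => hmem i (by omega),
    fun i hi => (hadj i (by omega)).1, fun i j hi hj hij h => ?_, fun i j hi hj h => ?_⟩
  · have h1 := hdist i (by omega)
    have h2 := hdist j (by omega)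
    have h3 : (gr P).Adj (p.getVert i) (p.getVert j) := ⟨h, hmem i (by omega), hmem j (by omega)⟩
    obtain ⟨p1, hp1⟩ := (p.take i).reachable.exists_walk_length_eq_dist
    have h4 := SimpleGraph.dist_le (p1.append (SimpleGraph.Walk.cons h3 SimpleGraph.Walk.nil))
    rw [SimpleGraph.Walk.length_append, hp1] at h4
    simp only [SimpleGraph.Walk.length_cons, SimpleGraph.Walk.length_nil] at h4
    omega
  · have h1 := hdist i (by omega)
    have h2 := hdist j (by omega)
    simp only at h
    rw [h] at h1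
    omega

/-- The congruence with frame `e` and `s (-e₂, e₁)` at the cell `t`. -/
def frame (t e : Cell) (s : ℤ) (he : e.1 ^ 2 + e.2 ^ 2 = 1) (hs : s * s = 1) : Cell ≃ Cell where
  toFun c := (t.1 + c.1 * e.1 - c.2 * s * e.2, t.2 + c.1 * e.2 + c.2 * s * e.1)
  invFun c := ((c.1 - t.1) * e.1 + (c.2 - t.2) * e.2,
    s * (-(c.1 - t.1) * e.2 + (c.2 - t.2) * e.1))
  left_inv c := by
    ext
    · simp only
      linear_combination c.1 * he
    · simp only
      linear_combination c.2 * hs * (e.1 ^ 2 + e.2 ^ 2) + c.2 * he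
  right_inv c := by
    ext
    · simp only
      linear_combination (c.1 - t.1) * he + (c.1 - t.1) * e.2 ^ 2 * hs -
        (c.2 - t.2) * e.1 * e.2 * hs
    · simp only
      linear_combination (c.2 - t.2) * he + (c.2 - t.2) * e.1 ^ 2 * hs -
        (c.1 - t.1) * e.1 * e.2 * hs

theorem frame_cong (t e : Cell) (s : ℤ) (he : e.1 ^ 2 + e.2 ^ 2 = 1) (hs : s * s = 1) :
    IsCongruence (frame t e s he hs) := by
  intro c d
  simp only [frame, sqd, Equiv.coe_fn_mk]
  linear_combination ((c.1 - d.1) ^ 2 + (c.2 - d.2) ^ 2) * he +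
    (c.2 - d.2) ^ 2 * (e.1 ^ 2 + e.2 ^ 2) * hs

end Pool.Agent.R184.Poly
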