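import Pool.Agent.R184.PolyStatic

set_option autoImplicit false

namespace Pool.Agent.R184.Poly

theorem adj_cases {c d : Cell} (h : Adj c d) :
    d = (c.1 + 1, c.2) ∨ d = (c.1 - 1, c.2) ∨ d = (c.1, c.2 + 1) ∨ d = (c.1, c.2 - 1) := by
  obtain ⟨c1, c2⟩ := c
  obtain ⟨d1, d2⟩ := d
  unfold Adj sqd at h
  simp only at h
  have h1 : (c1 - d1) ^ 2 ≤ 1 := by nlinarith [sq_nonneg (c2 - d2)]
  have h2 : (c2 - d2) ^ 2 ≤ 1 := by nlinarith [sq_nonneg (c1 - d1)]
  have h3 : -1 ≤ c1 - d1 ∧ c1 - d1 ≤ 1 := by constructor <;> nlinarith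
  have h4 : -1 ≤ c2 - d2 ∧ c2 - d2 ≤ 1 := by constructor <;> nlinarith
  have h5 : c1 - d1 = -1 ∨ c1 - d1 = 0 ∨ c1 - d1 = 1 := by omega
  have h6 : c2 - d2 = -1 ∨ c2 - d2 = 0 ∨ c2 - d2 = 1 := by omega
  simp only [Prod.mk.injEq]
  rcases h5 with h5 | h5 | h5 <;> rcases h6 with h6 | h6 | h6 <;> rw [h5, h6] at h <;>
    norm_num at h <;> omega

theorem IsCongruence.adj {g : Cell ≃ Cell} (hg : IsCongruence g) {c d : Cell} (h : Adj c d) :
    Adj (g c) (g d) := by
  unfold Adj at *
  rw [hg, h]

theorem IsCongruence.trans {g h : Cell ≃ Cell} (hg : IsCongruence g) (hh : IsCongruence h) :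
    IsCongruence (g.trans h) := by
  intro c d
  simp only [Equiv.trans_apply]
  rw [hh, hg]

theorem IsCongruence.symm {g : Cell ≃ Cell} (hg : IsCongruence g) : IsCongruence g.symm := by
  intro c d
  have := hg (g.symm c) (g.symm d)
  simpa using this.symm

theorem Ancestor.trans {P Q R : Finset Cell} (h1 : Ancestor P Q) (h2 : Ancestor Q R) :
    Ancestor P R := by
  obtain ⟨g, hg, h1⟩ := h1
  obtain ⟨h, hh, h2⟩ := h2
  exact ⟨g.trans h, hg.trans hh, fun c hc => h2 _ (h1 c hc)⟩

theorem Ancestor.card_le {P Q : Finset Cell} (h : Ancestor P Q) : P.card ≤ Q.card := by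
  obtain ⟨g, _, h⟩ := h
  exact Finset.card_le_card_of_injOn g (fun c hc => h c hc) (g.injective.injOn)

/-- The translation by `(s, t)`. -/
def shiftEquiv (s t : ℤ) : Cell ≃ Cell where
  toFun c := (c.1 + s, c.2 + t)
  invFun c := (c.1 - s, c.2 - t)
  left_inv c := by simp
  right_inv c := by simp

theorem shiftEquiv_cong (s t : ℤ) : IsCongruence (shiftEquiv s t) := by
  intro c d
  simp only [shiftEquiv, sqd, Equiv.coe_fn_mk]
  ring

/-- First coordinate along the monotone path with steps `w`. -/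
noncomputable def X (w : ℤ → Bool) (i : ℤ) : ℤ :=
  ∑ j ∈ Finset.Ico 0 i, (if w j then 1 else 0) - ∑ j ∈ Finset.Ico i 0, (if w j then 1 else 0)

theorem X_succ (w : ℤ → Bool) (i : ℤ) : X w (i + 1) = X w i + (if w i then 1 else 0) := by
  unfold X
  rcases le_or_gt 0 i with hi | hi
  · have h1 : Finset.Ico (0 : ℤ) (i + 1) = insert i (Finset.Ico 0 i) := by
      ext j
      simp only [Finset.mem_Ico, Finset.mem_insert]
      omega
    have h2 : Finset.Ico (i + 1) (0 : ℤ) = ∅ := by
      rw [Finset.Ico_eq_empty_iff]; omega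
    have h3 : Finset.Ico i (0 : ℤ) = ∅ := by
      rw [Finset.Ico_eq_empty_iff]; omega
    rw [h1, h2, h3, Finset.sum_insert (by simp)]
    simp
    ring
  · have h1 : Finset.Ico i (0 : ℤ) = insert i (Finset.Ico (i + 1) 0) := by
      ext j
      simp only [Finset.mem_Ico, Finset.mem_insert]
      omega
    have h2 : Finset.Ico (0 : ℤ) (i + 1) = ∅ := by
      rw [Finset.Ico_eq_empty_iff]; omega
    have h3 : Finset.Ico (0 : ℤ) i = ∅ := by
      rw [Finset.Ico_eq_empty_iff]; omega
    rw [h1, h2, h3, Finset.sum_insert (by simp)]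
    simp

theorem X_pred (w : ℤ → Bool) (i : ℤ) : X w i = X w (i - 1) + (if w (i - 1) then 1 else 0) := by
  have := X_succ w (i - 1)
  rw [sub_add_cancel] at this
  exact this

/-- The partner assignment of the tiling of the plane by translates of a monotone path. -/
def monoPairing (w : ℤ → Bool) : Pairing where
  K c := (if w (c.1 + c.2) then (c.1, c.2 + 1) else (c.1 + 1, c.2),
    if w (c.1 + c.2 - 1) then (c.1, c.2 - 1) else (c.1 - 1, c.2))
  ne_fst c := by
    by_cases h : w (c.1 + c.2) <;> simp [h, Prod.ext_iff]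
  ne_snd c := by
    by_cases h : w (c.1 + c.2 - 1) <;> simp [h, Prod.ext_iff]
  symm_fst c := by
    right
    by_cases h : w (c.1 + c.2)
    · have h' : w (c.1 + (c.2 + 1) - 1) = true := by
        rw [← h]; congr 1; ring
      simp [h, h']
    · have h' : w (c.1 + 1 + c.2 - 1) = false := by
        rw [show c.1 + 1 + c.2 - 1 = c.1 + c.2 by ring]; simpa using h
      simp [h, h']
  symm_snd c := by
    left
    by_cases h : w (c.1 + c.2 - 1)
    · have h' : w (c.1 + (c.2 - 1)) = true := by
        rw [← h]; congr 1; ring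
      simp [h, h']
    · have h' : w (c.1 - 1 + c.2) = false := by
        rw [show c.1 - 1 + c.2 = c.1 + c.2 - 1 by ring]; simpa using h
      simp [h, h']

/-- The cells of the path between the indices `a` and `b`. -/
noncomputable def snake (w : ℤ → Bool) (a b : ℤ) : Finset Cell :=
  (Finset.Icc a b).image (fun i => (X w i, i - X w i))

/-- The number of the translate which contains `c`. -/
noncomputable def lane (w : ℤ → Bool) (c : Cell) : ℤ := c.1 - X w (c.1 + c.2)

theorem lane_eq {w : ℤ → Bool} {c d : Cell} (h : Adj c d) (hr : ¬ (monoPairing w).Rel c d) :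
    lane w d = lane w c := by
  unfold Pairing.Rel at hr
  rw [not_or] at hr
  obtain ⟨h1, h2⟩ := hr
  simp only [monoPairing] at h1 h2
  unfold lane
  rcases adj_cases h with rfl | rfl | rfl | rfl
  · have hw : w (c.1 + c.2) = true := by
      by_contra hw
      simp [hw] at h1
    have := X_succ w (c.1 + c.2)
    rw [hw] at this
    simp only at *
    rw [show c.1 + 1 + c.2 = c.1 + c.2 + 1 by ring, this]
    simp
  · have hw : w (c.1 + c.2 - 1) = true := by
      by_contra hw
      simp [hw] at h2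
    have := X_pred w (c.1 + c.2)
    rw [hw] at this
    simp only at *
    rw [this, show c.1 - 1 + c.2 = c.1 + c.2 - 1 by ring]
    simp
    ring
  · have hw : w (c.1 + c.2) = false := by
      by_contra hw
      simp [hw] at h1
    have := X_succ w (c.1 + c.2)
    rw [hw] at this
    simp only at *
    rw [show c.1 + (c.2 + 1) = c.1 + c.2 + 1 by ring, this]
    simp
  · have hw : w (c.1 + c.2 - 1) = false := by
      by_contra hw
      simp [hw] at h2
    have := X_pred w (c.1 + c.2)
    rw [hw] at this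
    simp only at *
    rw [this, show c.1 + (c.2 - 1) = c.1 + c.2 - 1 by ring]
    simp

/-- Every winner contains an ancestor of a segment of a given monotone path. -/
theorem winner_mono {F : Set (Finset Cell)} (hF : Winner F) (hpoly : ∀ P ∈ F, IsPolyomino P)
    (w : ℤ → Bool) : ∃ P ∈ F, ∃ N : ℕ, Ancestor P (snake w (-N) N) := by
  obtain ⟨P, hP, g, hg, hfree⟩ := hF.exists_free (monoPairing w)
  obtain ⟨⟨a, ha⟩, hconn⟩ := hpoly P hP
  have hlane : ∀ b ∈ P, lane w (g b) = lane w (g a) := by
    intro b hb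
    have h1 := hconn a ha b hb
    have : b ∈ P ∧ lane w (g b) = lane w (g a) := by
      clear hb
      induction h1 with
      | refl => exact ⟨ha, rfl⟩
      | tail _ hxy ih =>
        obtain ⟨hx, hlx⟩ := ih
        obtain ⟨hadj, hy⟩ := hxy
        refine ⟨hy, ?_⟩
        rw [← hlx]
        exact lane_eq (hg.adj hadj) (hfree _ hx _ hy)
    exact this.2
  set s := lane w (g a) with hs
  obtain ⟨N, hN⟩ : ∃ N : ℕ, ∀ b ∈ P, -(N : ℤ) ≤ (g b).1 + (g b).2 ∧ (g b).1 + (g b).2 ≤ N := by
    refine ⟨∑ b ∈ P, ((g b).1 + (g b).2).natAbs, fun b hb => ?_⟩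
    have h2 := Finset.single_le_sum (f := fun b => ((g b).1 + (g b).2).natAbs)
      (fun _ _ => Nat.zero_le _) hb
    omega
  refine ⟨P, hP, N, g.trans (shiftEquiv (-s) s), hg.trans (shiftEquiv_cong _ _), fun b hb => ?_⟩
  rw [snake, Finset.mem_image]
  refine ⟨(g b).1 + (g b).2, Finset.mem_Icc.mpr (hN b hb), ?_⟩
  have hl := hlane b hb
  unfold lane at hl
  simp only [Equiv.trans_apply, shiftEquiv, Equiv.coe_fn_mk, Prod.mk.injEq]
  constructor <;> linarith

end Pool.Agent.R184.Poly
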