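import Pool.Agent.R184.PolyDefs

set_option autoImplicit false

namespace Pool.Agent.R184.Poly

/-- A symmetric assignment of two partner cells to every cell. -/
structure Pairing where
  K : Cell → Cell × Cell
  ne_fst : ∀ c, (K c).1 ≠ c
  ne_snd : ∀ c, (K c).2 ≠ c
  symm_fst : ∀ c, c = (K (K c).1).1 ∨ c = (K (K c).1).2
  symm_snd : ∀ c, c = (K (K c).2).1 ∨ c = (K (K c).2).2

/-- `d` is a partner of `c`. -/
def Pairing.Rel (𝒦 : Pairing) (c d : Cell) : Prop := d = (𝒦.K c).1 ∨ d = (𝒦.K c).2

theorem Pairing.Rel.symm {𝒦 : Pairing} {c d : Cell} (h : 𝒦.Rel c d) : 𝒦.Rel d c := by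
  rcases h with rfl | rfl
  · exact 𝒦.symm_fst c
  · exact 𝒦.symm_snd c

theorem Pairing.Rel.ne {𝒦 : Pairing} {c d : Cell} (h : 𝒦.Rel c d) : d ≠ c := by
  rcases h with rfl | rfl
  · exact 𝒦.ne_fst c
  · exact 𝒦.ne_snd c

/-- Outside a finite set of cells there are two cells which include the given ones. -/
theorem exists_reply (S : Finset Cell) (a b : Cell) :
    ∃ r : Cell × Cell, r.1 ≠ r.2 ∧ r.1 ∉ S ∧ r.2 ∉ S ∧ (a ∈ S ∨ a = r.1 ∨ a = r.2) ∧
      (b ∈ S ∨ b = r.1 ∨ b = r.2) := by
  have hfresh : ∀ T : Finset Cell, ∃ c, c ∉ T := fun T => Infinite.exists_notMem_finset T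
  by_cases ha : a ∈ S
  · by_cases hb : b ∈ S
    · obtain ⟨x, hx⟩ := hfresh S
      obtain ⟨y, hy⟩ := hfresh (insert x S)
      rw [Finset.mem_insert, not_or] at hy
      exact ⟨(x, y), fun h => hy.1 h.symm, hx, hy.2, Or.inl ha, Or.inl hb⟩
    · obtain ⟨y, hy⟩ := hfresh (insert b S)
      rw [Finset.mem_insert, not_or] at hy
      exact ⟨(b, y), fun h => hy.1 h.symm, hb, hy.2, Or.inl ha, Or.inr (Or.inl rfl)⟩
  · by_cases hb : b ∈ S ∨ b = a
    · obtain ⟨y, hy⟩ := hfresh (insert a S)
      rw [Finset.mem_insert, not_or] at hy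
      exact ⟨(a, y), fun h => hy.1 h.symm, ha, hy.2, Or.inr (Or.inl rfl),
        hb.imp id Or.inl⟩
    · rw [not_or] at hb
      exact ⟨(a, b), fun h => hb.2 h.symm, ha, hb.1, Or.inr (Or.inl rfl), Or.inr (Or.inr rfl)⟩

/-- If `F` is a winner, then against the breaker marking partners the maker gets a copy of an
element of `F` without partner cells. -/
theorem Winner.exists_free {F : Set (Finset Cell)} (hF : Winner F) (𝒦 : Pairing) :
    ∃ P ∈ F, ∃ g : Cell ≃ Cell, IsCongruence g ∧
      ∀ c ∈ P, ∀ d ∈ P, ¬ 𝒦.Rel (g c) (g d) := by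
  classical
  obtain ⟨σ, hσ, hwin⟩ := hF
  -- the replies
  have hrep : ∀ h : Replies, ∃ r : Cell × Cell, r.1 ≠ r.2 ∧
      r.1 ∉ ((makerCells σ h).toFinset ∪ (breakerCells h).toFinset ∪ {σ h}) ∧
      r.2 ∉ ((makerCells σ h).toFinset ∪ (breakerCells h).toFinset ∪ {σ h}) ∧
      ((𝒦.K (σ h)).1 ∈ ((makerCells σ h).toFinset ∪ (breakerCells h).toFinset ∪ {σ h}) ∨
        (𝒦.K (σ h)).1 = r.1 ∨ (𝒦.K (σ h)).1 = r.2) ∧
      ((𝒦.K (σ h)).2 ∈ ((makerCells σ h).toFinset ∪ (breakerCells h).toFinset ∪ {σ h}) ∨
        (𝒦.K (σ h)).2 = r.1 ∨ (𝒦.K (σ h)).2 = r.2) := fun h => exists_reply _ _ _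
  choose ρ hρ1 hρ2 hρ3 hρ4 hρ5 using hrep
  simp only [Finset.mem_union, List.mem_toFinset, Finset.mem_singleton, not_or] at hρ2 hρ3 hρ4 hρ5
  let H : ℕ → Replies := fun t => Nat.rec [] (fun _ h => ρ h :: h) t
  let b : ℕ → Cell × Cell := fun t => ρ (H t)
  have hH : ∀ t, history b t = H t := by
    intro t
    induction t with
    | zero => rfl
    | succ t ih =>
      show b t :: history b t = ρ (H t) :: H t
      rw [ih]
  have hlegal : ∀ t, LegalReplies σ (history b t) := by
    intro t
    induction t with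
    | zero => trivial
    | succ t ih =>
      show LegalReplies σ (b t :: history b t)
      refine ⟨ih, ?_⟩
      rw [hH t]
      exact ⟨hρ1 _, ⟨(hρ2 _).1.1, (hρ2 _).1.2, (hρ2 _).2⟩,
        ⟨(hρ3 _).1.1, (hρ3 _).1.2, (hρ3 _).2⟩⟩
  -- partners of the maker's cells belong to the breaker
  have hinv : ∀ t, ∀ c ∈ makerCells σ (history b t), ∀ d, 𝒦.Rel c d →
      d ∈ breakerCells (history b t) := by
    intro t
    induction t with
    | zero => intro c hc; simp [history, makerCells] at hc
    | succ t ih =>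
      have hleg := hσ _ (hlegal t)
      intro c hc d hd
      show d ∈ (b t).1 :: (b t).2 :: breakerCells (history b t)
      have hc' : c = σ (history b t) ∨ c ∈ makerCells σ (history b t) := by
        simpa [history, makerCells] using hc
      rcases hc' with rfl | hc'
      · have hbt : b t = ρ (history b t) := by rw [hH t]
        rw [hbt]
        have hkey : (d ∈ makerCells σ (history b t) ∨ d ∈ breakerCells (history b t)) ∨
            d = σ (history b t) ∨ d = (ρ (history b t)).1 ∨ d = (ρ (history b t)).2 := by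
          rcases hd with rfl | rfl
          · rcases hρ4 (history b t) with (h | h) | h
            · exact Or.inl h
            · exact Or.inr (Or.inl h)
            · exact Or.inr (Or.inr h)
          · rcases hρ5 (history b t) with (h | h) | h
            · exact Or.inl h
            · exact Or.inr (Or.inl h)
            · exact Or.inr (Or.inr h)
        rcases hkey with (h | h) | h | h | h
        · exact absurd (ih d h _ hd.symm) hleg.2
        · simp [h]
        · exact absurd h hd.ne
        · simp [h]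
        · simp [h]
      · have := ih c hc' d hd
        simp [this]
  have hdisj : ∀ t, ∀ c ∈ makerCells σ (history b t), c ∉ breakerCells (history b t) := by
    intro t
    induction t with
    | zero => intro c hc; simp [history, makerCells] at hc
    | succ t ih =>
      have hleg := hσ _ (hlegal t)
      have hl := hlegal (t + 1)
      obtain ⟨_, _, ⟨h1, _, h2⟩, ⟨h3, _, h4⟩⟩ := hl
      intro c hc hcb
      have hc' : c = σ (history b t) ∨ c ∈ makerCells σ (history b t) := by
        simpa [history, makerCells] using hc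
      have hcb' : c = (b t).1 ∨ c = (b t).2 ∨ c ∈ breakerCells (history b t) := by
        simpa [history, breakerCells] using hcb
      rcases hc' with rfl | hc'
      · rcases hcb' with h | h | h
        · exact h2 h.symm
        · exact h4 h.symm
        · exact hleg.2 h
      · rcases hcb' with h | h | h
        · rw [h] at hc'; exact h1 hc'
        · rw [h] at hc'; exact h3 hc'
        · exact ih c hc' h
  obtain ⟨t, P, hP, g, hg, hsub⟩ := hwin b hlegal
  refine ⟨P, hP, g, hg, fun c hc d hd hrel => ?_⟩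
  exact hdisj t _ (hsub d hd) (hinv t _ (hsub c hc) _ hrel)

end Pool.Agent.R184.Poly
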